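import Pool.Agent.Lib.MP_c0fb52_nt.Quintuple

set_option autoImplicit false

/-!
From the single sum over `N` to the theta series.
-/

namespace Pool.Agent.Lib.MP_c0fb52_nt

open Finset PowerSeries PowerSeries.WithPiTopology Filter Topology

noncomputable def uA (m : ℤ) : ℤ⟦X⟧ := X ^ (15 * m ^ 2 + 7 * m).toNat

noncomputable def vA (m : ℤ) : ℤ⟦X⟧ := X ^ (15 * m ^ 2 + 13 * m + 2).toNat

theorem u_exp (m : ℤ) : (m.natAbs : ℤ) ≤ 15 * m ^ 2 + 7 * m := by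
  have a3 := sq_ge m
  have b3 := neg_abs_le m
  have b3' := le_abs_self m
  have h3 : (m.natAbs : ℤ) = |m| := Int.natCast_natAbs m
  rw [h3]
  nlinarith

theorem v_exp (m : ℤ) : (m.natAbs : ℤ) ≤ 15 * m ^ 2 + 13 * m + 2 := by
  have a3 := sq_ge m
  have b3 := neg_abs_le m
  have b3' := le_abs_self m
  have h3 : (m.natAbs : ℤ) = |m| := Int.natCast_natAbs m
  rw [h3]
  nlinarith

theorem uA_dvd (m : ℤ) : (X : ℤ⟦X⟧) ^ m.natAbs ∣ uA m := by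
  have := u_exp m
  exact pow_dvd_pow X (by omega)

theorem vA_dvd (m : ℤ) : (X : ℤ⟦X⟧) ^ m.natAbs ∣ vA m := by
  have := v_exp m
  exact pow_dvd_pow X (by omega)

noncomputable def bA1 (N : ℕ) (m : ℤ) : ℤ⟦X⟧ :=
  fpoch (X ^ 2) (2 * N + 1) * (uA m *
      (ip (X ^ 2) ((N : ℤ) - 3 * m) * ip (X ^ 2) ((N : ℤ) + 1 + 3 * m)) -
    vA m * (ip (X ^ 2) ((N : ℤ) - 1 - 3 * m) * ip (X ^ 2) ((N : ℤ) + 2 + 3 * m)))

noncomputable def bA2 (N : ℕ) (m : ℤ) : ℤ⟦X⟧ :=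
  fpoch (X ^ 2) (2 * N + 2) * ((uA m - vA m) *
      (ip (X ^ 2) ((N : ℤ) - 3 * m) * ip (X ^ 2) ((N : ℤ) + 2 + 3 * m)))

theorem phi_uA (m : ℤ) : phi (uA m) = (phi X) ^ (15 * m ^ 2 + 7 * m) :=
  phi_X_toNat (by have := u_exp m; omega)

theorem phi_vA (m : ℤ) : phi (vA m) = (phi X) ^ (15 * m ^ 2 + 13 * m + 2) :=
  phi_X_toNat (by have := v_exp m; omega)

theorem phi_bA1 (N : ℕ) (m : ℤ) : phi (bA1 N m) = bK (phi X) (phi (X ^ 2)) N m := by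
  unfold bA1 bK
  simp only [map_mul, map_sub, phi_fpoch, phi_ip X_dvd_X_sq, phi_uA, phi_vA]

theorem phi_bA2 (N : ℕ) (m : ℤ) : phi (bA2 N m) = bK2 (phi X) (phi (X ^ 2)) N m := by
  unfold bA2 bK2
  simp only [map_mul, map_sub, phi_fpoch, phi_ip X_dvd_X_sq, phi_uA, phi_vA]

theorem phi_RK (M : ℕ) (N : ℤ) :
    phi (RK X (X ^ 2) M N) = RK (phi X) (phi (X ^ 2)) M N := by
  unfold RK
  rw [map_sum]
  apply sum_congr rfl
  intro l _
  have h4 : (X : ℤ⟦X⟧) ∣ (X ^ 2) ^ 2 := dvd_pow X_dvd_X_sq two_ne_zero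
  rw [map_mul, map_mul, map_pow, phi_ip h4, phi_ip X_dvd_X_sq, map_pow phi (X ^ 2) 2]

/-- `R_N` -/
noncomputable def RA (N : ℕ) : ℤ⟦X⟧ := RK X (X ^ 2) (N + 1) N

theorem F1A (N : ℕ) : fpoch (X ^ 2) N * RA N = ∑' m, bA1 N m := by
  rw [tsum_eq_S (L := N)]
  · apply phi_inj
    have hQ : (phi (X : ℤ⟦X⟧)) ^ 2 = phi (X ^ 2) := (map_pow _ _ _).symm
    have hp : ∀ n : ℕ, 0 < n → (phi ((X : ℤ⟦X⟧) ^ 2)) ^ n ≠ 1 := by
      intro n hn
      rw [← hQ]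
      exact phi_X_pow_ne_one two_pos n hn
    have hp2 : ∀ n : ℕ, 0 < n → ((phi ((X : ℤ⟦X⟧) ^ 2)) ^ 2) ^ n ≠ 1 := by
      intro n hn
      rw [← hQ]
      have h := phi_X_pow_ne_one (c := 2 * 2) (by norm_num) n hn
      rwa [pow_mul] at h
    rw [map_mul, phi_fpoch, RA, phi_RK, phi_S,
      F1K hQ phi_X_ne_zero hp hp2 (N + 1) N N (by omega) le_rfl]
    exact S_congr N fun j => (phi_bA1 N j).symm
  · intro j hj
    unfold bA1
    rcases le_or_gt 0 j with h | h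
    · rw [abs_of_nonneg h] at hj
      rw [ip_of_neg (X ^ 2) (k := (N : ℤ) - 3 * j) (by omega),
        ip_of_neg (X ^ 2) (k := (N : ℤ) - 1 - 3 * j) (by omega)]
      simp
    · rw [abs_of_neg h] at hj
      rw [ip_of_neg (X ^ 2) (k := (N : ℤ) + 1 + 3 * j) (by omega),
        ip_of_neg (X ^ 2) (k := (N : ℤ) + 2 + 3 * j) (by omega)]
      simp

theorem F2A (N : ℕ) : fpoch (X ^ 2) (N + 1) * RA N = ∑' m, bA2 N m := by
  rw [tsum_eq_S (L := N)]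
  · apply phi_inj
    have hQ : (phi (X : ℤ⟦X⟧)) ^ 2 = phi (X ^ 2) := (map_pow _ _ _).symm
    have hp : ∀ n : ℕ, 0 < n → (phi ((X : ℤ⟦X⟧) ^ 2)) ^ n ≠ 1 := by
      intro n hn
      rw [← hQ]
      exact phi_X_pow_ne_one two_pos n hn
    have hp2 : ∀ n : ℕ, 0 < n → ((phi ((X : ℤ⟦X⟧) ^ 2)) ^ 2) ^ n ≠ 1 := by
      intro n hn
      rw [← hQ]
      have h := phi_X_pow_ne_one (c := 2 * 2) (by norm_num) n hn
      rwa [pow_mul] at h
    rw [map_mul, phi_fpoch, RA, phi_RK, phi_S,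
      F2K hQ phi_X_ne_zero hp hp2 (N + 1) N N (by omega) le_rfl]
    exact S_congr N fun j => (phi_bA2 N j).symm
  · intro j hj
    unfold bA2
    rcases le_or_gt 0 j with h | h
    · rw [abs_of_nonneg h] at hj
      rw [ip_of_neg (X ^ 2) (k := (N : ℤ) - 3 * j) (by omega)]
      simp
    · rw [abs_of_neg h] at hj
      rw [ip_of_neg (X ^ 2) (k := (N : ℤ) + 2 + 3 * j) (by omega)]
      simp

theorem P1 (N : ℕ) : pinf (-X ^ (2 * N + 2)) X * (ip (X ^ 2) N * fpoch (X ^ 2) (2 * N + 1)) =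
    pinf (-X : ℤ⟦X⟧) X * odd (N + 1) := by
  have h1 := prefactor (2 * N + 1)
  rw [fpoch_X_odd] at h1
  have h2 := fpoch_mul_ip X_dvd_X_sq N
  calc _ = (pinf (-X ^ (2 * N + 1 + 1)) X * fpoch (X ^ 2) (2 * N + 1)) * ip (X ^ 2) N := by ring
    _ = (pinf (-X : ℤ⟦X⟧) X * (odd (N + 1) * fpoch (X ^ 2) N)) * ip (X ^ 2) N := by rw [h1]
    _ = pinf (-X : ℤ⟦X⟧) X * odd (N + 1) * (fpoch (X ^ 2) N * ip (X ^ 2) N) := by ring
    _ = _ := by rw [h2, mul_one]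

theorem P2 (N : ℕ) : pinf (-X ^ (2 * N + 3)) X * (ip (X ^ 2) ((N + 1 : ℕ) : ℤ) *
    fpoch (X ^ 2) (2 * N + 2)) = pinf (-X : ℤ⟦X⟧) X * odd (N + 1) := by
  have h1 := prefactor (2 * N + 2)
  rw [fpoch_X_even] at h1
  have h2 := fpoch_mul_ip X_dvd_X_sq (N + 1)
  calc _ = (pinf (-X ^ (2 * N + 2 + 1)) X * fpoch (X ^ 2) (2 * N + 2)) *
        ip (X ^ 2) ((N + 1 : ℕ) : ℤ) := by ring
    _ = (pinf (-X : ℤ⟦X⟧) X * (odd (N + 1) * fpoch (X ^ 2) (N + 1))) *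
        ip (X ^ 2) ((N + 1 : ℕ) : ℤ) := by rw [h1]
    _ = pinf (-X : ℤ⟦X⟧) X * odd (N + 1) * (fpoch (X ^ 2) (N + 1) *
        ip (X ^ 2) ((N + 1 : ℕ) : ℤ)) := by ring
    _ = _ := by rw [h2, mul_one]

/-- the double summand -/
noncomputable def dd (N : ℕ) (m : ℤ) : ℤ⟦X⟧ :=
  uA m * zt' N (3 * m) - vA m * zt' N (3 * m + 1) - (uA m - vA m) * zt (N + 1) (3 * m + 1)

theorem dd_dvd (N : ℕ) (m : ℤ) : (X : ℤ⟦X⟧) ^ (N ^ 2 + m.natAbs) ∣ dd N m := by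
  unfold dd
  rw [add_comm, pow_add]
  have h1 : (X : ℤ⟦X⟧) ^ (N ^ 2) ∣ zt (N + 1) (3 * m + 1) :=
    (pow_dvd_pow X (Nat.pow_le_pow_left (Nat.le_succ N) 2)).trans (zt_dvd (N + 1) _)
  refine dvd_sub (dvd_sub ?_ ?_) ?_
  · exact mul_dvd_mul (uA_dvd m) (zt'_dvd N _)
  · exact mul_dvd_mul (vA_dvd m) (zt'_dvd N _)
  · exact mul_dvd_mul (dvd_sub (uA_dvd m) (vA_dvd m)) h1

theorem summable_dd_right (N : ℕ) : Summable (dd N) :=
  summable_sx (e := fun m => m.natAbs) (fun j => by omega)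
    (fun m => (pow_dvd_pow X (by omega)).trans (dd_dvd N m))

theorem summable_dd_left (m : ℤ) : Summable fun N => dd N m :=
  summable_of_dvd (fun n => n ^ 2) finite_sq
    (fun N => (pow_dvd_pow X (by omega)).trans (dd_dvd N m))

theorem summable_dd : Summable (Function.uncurry dd) := by
  refine summable_of_dvd (fun x : ℕ × ℤ => x.1 ^ 2 + x.2.natAbs) (fun n => ?_)
    (fun x => dd_dvd x.1 x.2)
  exact finite_prod (a := fun i : ℕ => i ^ 2) (b := fun j : ℤ => j.natAbs) finite_sq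
    (fun n => finite_int (e := fun j => j.natAbs) (fun i => by omega) n)
    (fun x => ⟨by omega, by omega⟩) n

/-- the summand of the single sum over `N` -/
noncomputable def fN (N : ℕ) : ℤ⟦X⟧ :=
  (-1) ^ N * X ^ (N ^ 2) * ((pinf (-X ^ (2 * N + 2)) X + X ^ (2 * N + 1) *
    pinf (-X ^ (2 * N + 3)) X) * RA N)

theorem fN_eq (N : ℕ) : fN N = pinf (-X) X * ∑' m, dd N m := by
  have h1 : RA N = ip (X ^ 2) N * ∑' m, bA1 N m := by
    rw [← F1A, ← mul_assoc, mul_comm (ip _ _), fpoch_mul_ip X_dvd_X_sq, one_mul]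
  have h2 : RA N = ip (X ^ 2) ((N + 1 : ℕ) : ℤ) * ∑' m, bA2 N m := by
    rw [← F2A, ← mul_assoc, mul_comm (ip _ _), fpoch_mul_ip X_dvd_X_sq, one_mul]
  have s1 : Summable (bA1 N) := by
    apply summable_sx (e := fun m => m.natAbs) (fun j => by omega)
    intro m
    unfold bA1
    exact Dvd.dvd.mul_left (dvd_sub (Dvd.dvd.mul_right (uA_dvd m) _)
      (Dvd.dvd.mul_right (vA_dvd m) _)) _
  have s2 : Summable (bA2 N) := by
    apply summable_sx (e := fun m => m.natAbs) (fun j => by omega)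
    intro m
    unfold bA2
    exact Dvd.dvd.mul_left (Dvd.dvd.mul_right (dvd_sub (uA_dvd m) (vA_dvd m)) _) _
  have e : fN N = (-1) ^ N * X ^ (N ^ 2) * pinf (-X ^ (2 * N + 2)) X * RA N +
      (-1) ^ N * X ^ (N ^ 2) * X ^ (2 * N + 1) * pinf (-X ^ (2 * N + 3)) X * RA N := by
    unfold fN
    ring
  rw [e]
  nth_rewrite 1 [h1]
  rw [h2, ← mul_assoc, ← mul_assoc, ← s1.tsum_mul_left, ← s2.tsum_mul_left,
    ← (s1.mul_left _).tsum_add (s2.mul_left _), ← (summable_dd_right N).tsum_mul_left]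
  apply tsum_congr
  intro m
  have p1 := P1 N
  have p2 := P2 N
  unfold bA1 bA2 dd zt zt'
  have a1 : (N : ℤ) - (3 * m + 1) = (N : ℤ) - 1 - 3 * m := by ring
  have a2 : (N : ℤ) + 1 + (3 * m + 1) = (N : ℤ) + 2 + 3 * m := by ring
  have a3 : ((N + 1 : ℕ) : ℤ) - (3 * m + 1) = (N : ℤ) - 3 * m := by push_cast; ring
  have a4 : ((N + 1 : ℕ) : ℤ) + (3 * m + 1) = (N : ℤ) + 2 + 3 * m := by push_cast; ring
  rw [a1, a2, a3, a4]
  have e1 : (-1 : ℤ⟦X⟧) ^ N * X ^ N ^ 2 * pinf (-X ^ (2 * N + 2)) X * ip (X ^ 2) ↑N *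
      (fpoch (X ^ 2) (2 * N + 1) *
        (uA m * (ip (X ^ 2) (↑N - 3 * m) * ip (X ^ 2) (↑N + 1 + 3 * m)) -
          vA m * (ip (X ^ 2) (↑N - 1 - 3 * m) * ip (X ^ 2) (↑N + 2 + 3 * m)))) =
      (-1 : ℤ⟦X⟧) ^ N * X ^ N ^ 2 * (pinf (-X ^ (2 * N + 2)) X * (ip (X ^ 2) ↑N *
      fpoch (X ^ 2) (2 * N + 1))) *
        (uA m * (ip (X ^ 2) (↑N - 3 * m) * ip (X ^ 2) (↑N + 1 + 3 * m)) -
          vA m * (ip (X ^ 2) (↑N - 1 - 3 * m) * ip (X ^ 2) (↑N + 2 + 3 * m))) := by ring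
  have e2 : (-1 : ℤ⟦X⟧) ^ N * X ^ N ^ 2 * X ^ (2 * N + 1) * pinf (-X ^ (2 * N + 3)) X *
      ip (X ^ 2) ((N + 1 : ℕ) : ℤ) *
      (fpoch (X ^ 2) (2 * N + 2) * ((uA m - vA m) * (ip (X ^ 2) (↑N - 3 * m) *
        ip (X ^ 2) (↑N + 2 + 3 * m)))) =
      (-1 : ℤ⟦X⟧) ^ N * X ^ N ^ 2 * X ^ (2 * N + 1) * (pinf (-X ^ (2 * N + 3)) X *
      (ip (X ^ 2) ((N + 1 : ℕ) : ℤ) * fpoch (X ^ 2) (2 * N + 2))) * ((uA m - vA m) *
        (ip (X ^ 2) (↑N - 3 * m) * ip (X ^ 2) (↑N + 2 + 3 * m))) := by ring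
  rw [e1, e2, p1, p2]
  ring

theorem Z_sx (s : ℤ) : Z s = sx s (s ^ 2) * Z 0 := by
  rw [Z_int]
  have e1 : s.natAbs ^ 2 = (s ^ 2).toNat := by
    have : ((s.natAbs ^ 2 : ℕ) : ℤ) = s ^ 2 := by
      push_cast
      exact sq_abs s
    omega
  have e2 : ((((-1 : (ℤ⟦X⟧)ˣ) ^ s : (ℤ⟦X⟧)ˣ)) : ℤ⟦X⟧) = (-1) ^ s.natAbs := by
    rcases Int.natAbs_eq s with h | h
    · nth_rewrite 1 [h]
      rw [zpow_natCast]
      simp
    · nth_rewrite 1 [h]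
      rw [zpow_neg, zpow_natCast, ← inv_pow]
      simp
  unfold sx
  rw [e1, e2]

theorem sum_N (m : ℤ) : ∑' N, dd N m =
    (sx m (24 * m ^ 2 + 7 * m) - sx m (24 * m ^ 2 + 25 * m + 6)) * Z 0 := by
  have s1 := summable_zt' (3 * m)
  have s2 := summable_zt' (3 * m + 1)
  have s3 : Summable fun N => zt (N + 1) (3 * m + 1) :=
    (summable_nat_add_iff 1).mpr (summable_zt (3 * m + 1))
  have h3 : ∑' N, zt (N + 1) (3 * m + 1) = Z (3 * m + 1) := by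
    have h := (summable_zt (3 * m + 1)).tsum_eq_zero_add
    have h0 : zt 0 (3 * m + 1) = 0 := by
      unfold zt
      rcases lt_or_gt_of_ne (show (3 * m + 1) ≠ 0 by omega) with h4 | h4
      · rw [ip_of_neg (X ^ 2) (k := ((0 : ℕ) : ℤ) + (3 * m + 1)) (by push_cast; omega)]
        simp
      · rw [ip_of_neg (X ^ 2) (k := ((0 : ℕ) : ℤ) - (3 * m + 1)) (by push_cast; omega)]
        simp
    rw [h0, zero_add] at h
    exact h.symm
  have h := ((s1.mul_left (uA m)).sub (s2.mul_left (vA m))).tsum_sub (s3.mul_left (uA m - vA m))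
  unfold dd
  rw [h, (s1.mul_left (uA m)).tsum_sub (s2.mul_left (vA m)), s1.tsum_mul_left, s2.tsum_mul_left,
    s3.tsum_mul_left, Z'_eq, Z'_eq, h3]
  have e1 : (3 * m + 1 + 1 : ℤ) = 3 * m + 2 := by ring
  rw [e1]
  have e2 : uA m * (Z (3 * m) + Z (3 * m + 1)) - vA m * (Z (3 * m + 1) + Z (3 * m + 2)) -
      (uA m - vA m) * Z (3 * m + 1) = uA m * Z (3 * m) - vA m * Z (3 * m + 2) := by ring
  rw [e2, Z_sx (3 * m), Z_sx (3 * m + 2)]
  have f1 : uA m = sx 0 (15 * m ^ 2 + 7 * m) := by unfold uA sx; simp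
  have f2 : vA m = sx 0 (15 * m ^ 2 + 13 * m + 2) := by unfold vA sx; simp
  have hu := u_exp m
  have hv := v_exp m
  rw [f1, f2, ← mul_assoc, ← mul_assoc, sx_mul (by omega) (by positivity),
    sx_mul (by omega) (by positivity)]
  have g1 : (15 * m ^ 2 + 7 * m + (3 * m) ^ 2 : ℤ) = 24 * m ^ 2 + 7 * m := by ring
  have g2 : (15 * m ^ 2 + 13 * m + 2 + (3 * m + 2) ^ 2 : ℤ) = 24 * m ^ 2 + 25 * m + 6 := by ring
  rw [g1, g2, sx_parity (i := 0 + 3 * m) (j := m) _ (by omega),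
    sx_parity (i := 0 + (3 * m + 2)) (j := m) _ (by omega)]
  ring

theorem second_theta : ∑' m : ℤ, sx m (24 * m ^ 2 + 25 * m + 6) =
    -(X ^ 5 * ∑' s, theta (-1) 24 23 s) := by
  rw [← (summable_theta (-1) (by norm_num)).tsum_mul_left, ← tsum_neg,
    ← (Equiv.subLeft (-1 : ℤ)).tsum_eq]
  apply tsum_congr
  intro m
  rw [Equiv.subLeft_apply, theta_neg]
  have e1 : (24 * (-1 - m) ^ 2 + 25 * (-1 - m) + 6 : ℤ) =
      5 + (((24 : ℕ) : ℤ) * m ^ 2 + 23 * m) := by push_cast; ring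
  have h5 : (0 : ℤ) ≤ ((24 : ℕ) : ℤ) * m ^ 2 + 23 * m := by
    have a3 := sq_ge m
    have b3 := neg_abs_le m
    have b3' := le_abs_self m
    push_cast
    nlinarith
  have e2 : (X : ℤ⟦X⟧) ^ 5 = sx 0 5 := by
    unfold sx
    simp
  rw [e1, e2, sx_mul (by norm_num) h5, ← sx_succ]
  exact sx_parity _ (by omega)

theorem summable_fN : Summable fN :=
  summable_of_dvd (fun n => n ^ 2) finite_sq fun N => by
    unfold fN
    exact Dvd.dvd.mul_right (Dvd.dvd.mul_left (dvd_refl _) _) _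

/-- `(q²;q²)_∞ ∑ fN = Θ` -/
theorem sum_fN : pinf (X ^ 2) (X ^ 2) * ∑' N, fN N =
    ∑' s, theta (-1) 24 7 s + X ^ 5 * ∑' s, theta (-1) 24 23 s := by
  rw [tsum_congr fN_eq]
  have s1 : Summable fun N => ∑' m, dd N m := summable_of_dvd (fun n => n ^ 2) finite_sq
    (fun N => dvd_tsum fun m => (pow_dvd_pow X (by omega)).trans (dd_dvd N m))
  rw [s1.tsum_mul_left]
  have hcomm : ∑' (N : ℕ) (m : ℤ), dd N m = ∑' (m : ℤ) (N : ℕ), dd N m :=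
    (summable_dd.tsum_comm' summable_dd_right summable_dd_left).symm
  rw [hcomm, tsum_congr sum_N]
  have t1 : Summable fun m : ℤ => sx m (24 * m ^ 2 + 7 * m) := by
    have := summable_theta (-1) (c := 24) (d := 7) (by norm_num)
    exact this
  have t2 : Summable fun m : ℤ => sx m (24 * m ^ 2 + 25 * m + 6) := by
    apply summable_sx (e := fun m : ℤ => (24 * m ^ 2 + 25 * m + 6).toNat)
    · intro m
      have a3 := sq_ge m
      have b3 := neg_abs_le m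
      have b3' := le_abs_self m
      have h3 : (m.natAbs : ℤ) = |m| := Int.natCast_natAbs m
      have h4 : |m| ≤ 24 * m ^ 2 + 25 * m + 6 + 1 := by
        nlinarith [sq_nonneg (m + 1), sq_nonneg m]
      omega
    · intro m
      exact sx_dvd _ _
  rw [(t1.sub t2).tsum_mul_right, t1.tsum_sub t2, second_theta]
  have e1 : ∑' m : ℤ, sx m (24 * m ^ 2 + 7 * m) = ∑' s, theta (-1) 24 7 s := rfl
  rw [e1]
  have h0 := Z_zero
  have h1 := euler_odd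
  calc _ = (pinf (-X) X * (pinf (X ^ 2) (X ^ 2) * Z 0)) *
      (∑' s, theta (-1) 24 7 s + X ^ 5 * ∑' s, theta (-1) 24 23 s) := by ring
    _ = _ := by rw [h0, h1, one_mul]

end Pool.Agent.Lib.MP_c0fb52_nt
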