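import Mathlib

set_option autoImplicit false

/-!
Finite identities in a field, with `ip p k = 1 / (p;p)_k` for `k ≥ 0` and `ip p k = 0` for `k < 0`.
-/

namespace Pool.Agent.Lib.MP_c0fb52_nt

open Finset

section Ring
variable {R : Type*} [CommRing R]

/-- `(p;p)_n` -/
def fpoch (p : R) (n : ℕ) : R := ∏ m ∈ range n, (1 - p ^ (m + 1))

theorem fpoch_zero (p : R) : fpoch p 0 = 1 := by simp [fpoch]

theorem fpoch_succ (p : R) (n : ℕ) : fpoch p (n + 1) = fpoch p n * (1 - p ^ (n + 1)) := by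
  simp [fpoch, prod_range_succ]

open Classical in
/-- `1/(p;p)_k` for `k ≥ 0` and `0` for `k < 0`. -/
noncomputable def ip (p : R) (k : ℤ) : R := if k < 0 then 0 else Ring.inverse (fpoch p k.toNat)

theorem ip_of_neg (p : R) {k : ℤ} (hk : k < 0) : ip p k = 0 := by
  simp [ip, hk]

theorem ip_natCast (p : R) (n : ℕ) : ip p (n : ℤ) = Ring.inverse (fpoch p n) := by
  simp [ip]

/-- Symmetric sum over the integers `-L ≤ j ≤ L`. -/
def S (L : ℕ) (f : ℤ → R) : R := ∑ i ∈ range (2 * L + 1), f ((i : ℤ) - L)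

theorem S_add (L : ℕ) (f g : ℤ → R) : S L (fun j => f j + g j) = S L f + S L g :=
  sum_add_distrib

theorem S_sub (L : ℕ) (f g : ℤ → R) : S L (fun j => f j - g j) = S L f - S L g :=
  sum_sub_distrib _ _

theorem S_mul (L : ℕ) (c : R) (f : ℤ → R) : S L (fun j => c * f j) = c * S L f :=
  (mul_sum _ _ _).symm

theorem S_tele (L : ℕ) (f : ℤ → R) :
    S L (fun j => f (j + 1) - f j) = f (L + 1) - f (-L) := by
  have h := sum_range_sub (fun i : ℕ => f ((i : ℤ) - L)) (2 * L + 1)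
  unfold S
  have e1 : ((2 * L + 1 : ℕ) : ℤ) - L = L + 1 := by push_cast; ring
  have e2 : ((0 : ℕ) : ℤ) - L = -L := by simp
  rw [e1, e2] at h
  rw [← h]
  apply sum_congr rfl
  intro i _
  have e3 : ((i + 1 : ℕ) : ℤ) - L = (i : ℤ) - L + 1 := by push_cast; ring
  rw [e3]

theorem S_shift (L : ℕ) (f : ℤ → R) (h1 : f (L + 1) = 0) (h2 : f (-L) = 0) :
    S L (fun j => f (j + 1)) = S L f := by
  have := S_tele L f
  rw [S_sub, h1, h2, sub_zero] at this
  exact sub_eq_zero.mp this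

theorem S_shift' (L : ℕ) (f : ℤ → R) (h1 : f L = 0) (h2 : f (-L - 1) = 0) :
    S L (fun j => f (j - 1)) = S L f := by
  have := S_shift L (fun j => f (j - 1)) (by simpa using h1) h2
  simpa using this.symm

theorem S_congr (L : ℕ) {f g : ℤ → R} (h : ∀ j, f j = g j) : S L f = S L g := by
  have : f = g := funext h
  rw [this]

theorem S_zero (f : ℤ → R) : S 0 f = f 0 := by simp [S]

end Ring

section Field
variable {K : Type*} [Field K]

theorem fpoch_ne_zero {p : K} (hp : ∀ n : ℕ, 0 < n → p ^ n ≠ 1) (n : ℕ) : fpoch p n ≠ 0 := by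
  unfold fpoch
  rw [prod_ne_zero_iff]
  intro m _
  exact sub_ne_zero.mpr (hp (m + 1) (Nat.succ_pos m)).symm

theorem ip_pred {p : K} (hp : ∀ n : ℕ, 0 < n → p ^ n ≠ 1) (k : ℤ) :
    ip p (k - 1) = (1 - p ^ k) * ip p k := by
  rcases lt_trichotomy k 0 with h | h | h
  · rw [ip_of_neg p h, ip_of_neg p (by omega), mul_zero]
  · subst h
    rw [ip_of_neg p (by omega), zpow_zero, sub_self, zero_mul]
  · obtain ⟨n, rfl⟩ : ∃ n : ℕ, k = (n : ℤ) + 1 := ⟨(k - 1).toNat, by omega⟩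
    have e : ((n : ℤ) + 1) = ((n + 1 : ℕ) : ℤ) := by push_cast; ring
    rw [add_sub_cancel_right, e, zpow_natCast, ip_natCast, ip_natCast, Ring.inverse_eq_inv',
      fpoch_succ, mul_inv]
    have h1 := fpoch_ne_zero hp n
    have h2 : (1 - p ^ (n + 1)) ≠ 0 := sub_ne_zero.mpr (hp (n + 1) (Nat.succ_pos n)).symm
    field_simp

theorem ip_zero (p : K) : ip p 0 = 1 := by
  have := ip_natCast p 0
  rw [fpoch_zero, Ring.inverse_one] at this
  exact this

/-- finite form of the Jacobi triple product -/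
theorem cauchy {h t : K} (h0 : h ≠ 0) (t0 : t ≠ 0) (hp : ∀ n : ℕ, 0 < n → (h ^ 2) ^ n ≠ 1)
    (n L : ℕ) (hL : n ≤ L) :
    ∏ k ∈ range n, ((1 + h ^ (2 * k + 1) * t) * (1 + h ^ (2 * k + 1) * t⁻¹)) =
      S L (fun j => h ^ (j ^ 2) * t ^ j *
        (fpoch (h ^ 2) (2 * n) * (ip (h ^ 2) (n + j) * ip (h ^ 2) (n - j)))) := by
  induction n with
  | zero =>
    simp only [range_zero, prod_empty, mul_zero, fpoch_zero, one_mul]
    unfold S
    rw [sum_eq_single_of_mem L (by simp; omega)]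
    · simp [ip_zero]
    · intro i _ hi
      have hne : (i : ℤ) - L ≠ 0 := by omega
      beta_reduce
      rcases lt_or_gt_of_ne hne with h1 | h1
      · rw [ip_of_neg (h ^ 2) (k := ((0 : ℕ) : ℤ) + ((i : ℤ) - L)) (by simpa using h1)]
        simp
      · rw [ip_of_neg (h ^ 2) (k := ((0 : ℕ) : ℤ) - ((i : ℤ) - L)) (by push_cast; omega)]
        simp
  | succ n ih =>
    rw [prod_range_succ, ih (by omega)]
    set T : ℤ → K := fun j => h ^ (j ^ 2) * t ^ j *
        (fpoch (h ^ 2) (2 * n) * (ip (h ^ 2) (n + j) * ip (h ^ 2) (n - j))) with hT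
    have hT0 : ∀ j : ℤ, (n : ℤ) < j ∨ j < -n → T j = 0 := by
      intro j hj
      rcases hj with hj | hj
      · simp only [hT]
        rw [ip_of_neg (h ^ 2) (k := (n : ℤ) - j) (by omega)]
        simp
      · simp only [hT]
        rw [ip_of_neg (h ^ 2) (k := (n : ℤ) + j) (by omega)]
        simp
    have e1 : S L T * ((1 + h ^ (2 * n + 1) * t) * (1 + h ^ (2 * n + 1) * t⁻¹)) =
        S L (fun j => (1 + h ^ (4 * n + 2)) * T j + h ^ (2 * n + 1) * t * T (j - 1) +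
          h ^ (2 * n + 1) * t⁻¹ * T (j + 1)) := by
      rw [S_add, S_add, S_mul, S_mul L (h ^ (2 * n + 1) * t) (fun j => T (j - 1)),
        S_mul L (h ^ (2 * n + 1) * t⁻¹) (fun j => T (j + 1)),
        S_shift L T (hT0 _ (by omega)) (hT0 _ (by omega)),
        S_shift' L T (hT0 _ (by omega)) (hT0 _ (by omega))]
      have e2 : h ^ (4 * n + 2) = h ^ (2 * n + 1) * h ^ (2 * n + 1) := by
        rw [← pow_add]; congr 1; ring
      rw [e2]
      field_simp
      ring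
    rw [e1]
    apply S_congr
    intro j
    simp only [hT]
    set W := ip (h ^ 2) (((n + 1 : ℕ) : ℤ) + j) * ip (h ^ 2) (((n + 1 : ℕ) : ℤ) - j) with hW
    set a : K := h ^ j with ha
    set b : K := h ^ n with hb
    have a0 : a ≠ 0 := zpow_ne_zero _ h0
    have b0 : b ≠ 0 := pow_ne_zero _ h0
    have hbz : b = h ^ (n : ℤ) := by rw [hb, zpow_natCast]
    have p1 : (h ^ 2) ^ (((n + 1 : ℕ) : ℤ) + j) = b ^ 2 * a ^ 2 * h ^ 2 := by
      rw [zpow_add₀ (pow_ne_zero 2 h0), zpow_natCast, ← zpow_natCast h 2, ← zpow_mul, ha,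
        ← zpow_natCast (h ^ j) 2, ← zpow_mul, mul_comm j, hb, ← zpow_natCast, ← zpow_natCast,
        ← zpow_natCast, ← zpow_mul, ← zpow_mul, ← zpow_add₀ h0, ← zpow_add₀ h0, ← zpow_add₀ h0]
      congr 1
      push_cast
      ring
    have p2 : (h ^ 2) ^ (((n + 1 : ℕ) : ℤ) - j) = b ^ 2 * (a ^ 2)⁻¹ * h ^ 2 := by
      rw [← zpow_natCast h 2, ← zpow_mul, ha, hb, ← zpow_natCast (h ^ j) 2, ← zpow_mul,
        ← zpow_neg, ← zpow_natCast, ← zpow_natCast, ← zpow_mul, ← zpow_add₀ h0, ← zpow_add₀ h0]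
      congr 1
      push_cast
      ring
    have p3 : (h ^ 2) ^ ((n : ℤ) + j) = b ^ 2 * a ^ 2 := by
      rw [← zpow_natCast h 2, ← zpow_mul, ha, hb, ← zpow_natCast (h ^ j) 2, ← zpow_mul,
        ← zpow_natCast, ← zpow_natCast, ← zpow_mul, ← zpow_add₀ h0]
      congr 1
      push_cast
      ring
    have p4 : (h ^ 2) ^ ((n : ℤ) - j) = b ^ 2 * (a ^ 2)⁻¹ := by
      rw [← zpow_natCast h 2, ← zpow_mul, ha, hb, ← zpow_natCast (h ^ j) 2, ← zpow_mul,
        ← zpow_neg, ← zpow_natCast, ← zpow_natCast, ← zpow_mul, ← zpow_add₀ h0]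
      congr 1
      push_cast
      ring
    have q1 : ip (h ^ 2) ((n : ℤ) + j) =
        (1 - b ^ 2 * a ^ 2 * h ^ 2) * ip (h ^ 2) (((n + 1 : ℕ) : ℤ) + j) := by
      rw [← p1, ← ip_pred hp]
      congr 1
      push_cast
      ring
    have q2 : ip (h ^ 2) ((n : ℤ) - j) =
        (1 - b ^ 2 * (a ^ 2)⁻¹ * h ^ 2) * ip (h ^ 2) (((n + 1 : ℕ) : ℤ) - j) := by
      rw [← p2, ← ip_pred hp]
      congr 1
      push_cast
      ring
    have q3 : ip (h ^ 2) ((n : ℤ) + (j - 1)) = (1 - b ^ 2 * a ^ 2) * ip (h ^ 2) ((n : ℤ) + j) := by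
      rw [← p3, ← ip_pred hp]
      congr 1
      ring
    have q4 : ip (h ^ 2) ((n : ℤ) - (j - 1)) = ip (h ^ 2) (((n + 1 : ℕ) : ℤ) - j) := by
      congr 1
      push_cast
      ring
    have q5 : ip (h ^ 2) ((n : ℤ) + (j + 1)) = ip (h ^ 2) (((n + 1 : ℕ) : ℤ) + j) := by
      congr 1
      push_cast
      ring
    have q6 : ip (h ^ 2) ((n : ℤ) - (j + 1)) =
        (1 - b ^ 2 * (a ^ 2)⁻¹) * ip (h ^ 2) ((n : ℤ) - j) := by
      rw [← p4, ← ip_pred hp]
      congr 1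
      ring
    have r1 : h ^ ((j - 1) ^ 2) = h ^ (j ^ 2) * (a ^ 2)⁻¹ * h := by
      rw [ha, ← zpow_natCast (h ^ j) 2, ← zpow_mul, ← zpow_neg]
      nth_rewrite 4 [← zpow_one h]
      rw [← zpow_add₀ h0, ← zpow_add₀ h0]
      congr 1
      push_cast
      ring
    have r2 : h ^ ((j + 1) ^ 2) = h ^ (j ^ 2) * (a ^ 2) * h := by
      rw [ha, ← zpow_natCast (h ^ j) 2, ← zpow_mul]
      nth_rewrite 4 [← zpow_one h]
      rw [← zpow_add₀ h0, ← zpow_add₀ h0]
      congr 1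
      push_cast
      ring
    have r3 : t ^ (j - 1) = t ^ j * t⁻¹ := by rw [zpow_sub₀ t0, zpow_one, div_eq_mul_inv]
    have r4 : t ^ (j + 1) = t ^ j * t := by rw [zpow_add₀ t0, zpow_one]
    have s1 : fpoch (h ^ 2) (2 * (n + 1)) =
        fpoch (h ^ 2) (2 * n) * (1 - b ^ 4 * h ^ 2) * (1 - b ^ 4 * h ^ 4) := by
      have e3 : 2 * (n + 1) = 2 * n + 1 + 1 := by ring
      rw [e3, fpoch_succ, fpoch_succ, hb]
      ring
    have s2 : h ^ (2 * n + 1) = b ^ 2 * h := by rw [hb]; ring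
    have s3 : h ^ (4 * n + 2) = b ^ 4 * h ^ 2 := by rw [hb]; ring
    rw [q3, q4, q5, q6, q1, q2, r1, r2, r3, r4, s1, s2, s3]
    field_simp
    ring

end Field

end Pool.Agent.Lib.MP_c0fb52_nt
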