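import Pool.Agent.Lib.MP_c0fb52_nt.Field

set_option autoImplicit false

/-!
The finite identity (F1), (F2) for `R_N = ∑ q^(4l²+4l) / ((q²;q²)_(N-2l) (q⁴;q⁴)_l)`.
-/

namespace Pool.Agent.Lib.MP_c0fb52_nt

open Finset

section
variable {R : Type*} [CommRing R]

/-- `R_N`, sum over `l < M`; to be used with `Q = q ^ 2` -/
noncomputable def RK (q Q : R) (M : ℕ) (N : ℤ) : R :=
  ∑ l ∈ range M, q ^ (4 * l * (l + 1)) * (ip (Q ^ 2) (l : ℤ) * ip Q (N - 2 * l))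

end

variable {K : Type*} [Field K]

theorem RK_rec {q Q : K} (hQ : q ^ 2 = Q) (h0 : q ≠ 0) (hp : ∀ n : ℕ, 0 < n → Q ^ n ≠ 1)
    (hp2 : ∀ n : ℕ, 0 < n → (Q ^ 2) ^ n ≠ 1) (M n : ℕ) (hM : n + 2 < 2 * M) :
    (1 - Q ^ (n + 2)) * RK q Q M ((n : ℤ) + 2) =
      (1 + Q - Q ^ (n + 2)) * RK q Q M ((n : ℤ) + 1)
        - (Q - Q ^ (2 * n + 4)) * RK q Q M n := by
  have hQ0 : Q ≠ 0 := by rw [← hQ]; exact pow_ne_zero 2 h0
  obtain ⟨H, hH⟩ : ∃ H : ℕ → K, H = fun l : ℕ => Q ^ (2 * n + 4) * q ^ (4 * l * (l - 1)) *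
    (ip (Q ^ 2) ((l : ℤ) - 1) * ip Q ((n : ℤ) + 2 - 2 * l)) := ⟨_, rfl⟩
  have key : (1 - Q ^ (n + 2)) * RK q Q M ((n : ℤ) + 2) -
      (1 + Q - Q ^ (n + 2)) * RK q Q M ((n : ℤ) + 1) + (Q - Q ^ (2 * n + 4)) * RK q Q M n =
      ∑ l ∈ range M, (H l - H (l + 1)) := by
    unfold RK
    rw [mul_sum, mul_sum, mul_sum, ← sum_sub_distrib, ← sum_add_distrib]
    apply sum_congr rfl
    intro l _
    simp only [hH]
    obtain ⟨c, hc⟩ : ∃ c : K, Q ^ l = c := ⟨_, rfl⟩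
    obtain ⟨k, hk⟩ : ∃ k : ℤ, (n : ℤ) + 2 - 2 * l = k := ⟨_, rfl⟩
    obtain ⟨x, hx⟩ : ∃ x : K, Q ^ k = x := ⟨_, rfl⟩
    have hc0 : c ≠ 0 := by rw [← hc]; exact pow_ne_zero _ hQ0
    have hx0 : x ≠ 0 := by rw [← hx]; exact zpow_ne_zero _ hQ0
    have e1 : ip Q ((n : ℤ) + 1 - 2 * l) = (1 - x) * ip Q k := by
      rw [← hx, ← ip_pred hp]
      congr 1
      omega
    have e2 : ip Q ((n : ℤ) - 2 * l) = (1 - x * Q⁻¹) * ((1 - x) * ip Q k) := by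
      have e3 : x * Q⁻¹ = Q ^ (k - 1) := by rw [← hx, zpow_sub₀ hQ0, zpow_one, div_eq_mul_inv]
      rw [e3, ← hx, ← ip_pred hp, ← ip_pred hp]
      congr 1
      omega
    have e4 : ip Q ((n : ℤ) + 2 - 2 * ((l + 1 : ℕ) : ℤ)) = (1 - x * Q⁻¹) * ((1 - x) * ip Q k) := by
      rw [← e2]
      congr 1
      push_cast
      ring
    have e5 : ip (Q ^ 2) ((l : ℤ) - 1) = (1 - c ^ 2) * ip (Q ^ 2) (l : ℤ) := by
      have e6 : c ^ 2 = (Q ^ 2) ^ (l : ℤ) := by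
        rw [← hc, zpow_natCast, ← pow_mul, ← pow_mul, mul_comm]
      rw [e6, ← ip_pred hp2]
    have e7 : ip (Q ^ 2) (((l + 1 : ℕ) : ℤ) - 1) = ip (Q ^ 2) (l : ℤ) := by
      congr 1
      push_cast
      ring
    have e8 : Q ^ (n + 2) = x * c ^ 2 := by
      rw [← hx, ← hc, ← pow_mul, ← zpow_natCast, ← zpow_natCast, ← zpow_add₀ hQ0]
      congr 1
      push_cast
      omega
    have e9 : Q ^ (2 * n + 4) = x ^ 2 * c ^ 4 := by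
      have : Q ^ (2 * n + 4) = (Q ^ (n + 2)) ^ 2 := by rw [← pow_mul]; congr 1 <;> ring
      rw [this, e8]
      ring
    have e10 : q ^ (4 * l * (l + 1)) = q ^ (4 * l * (l - 1)) * c ^ 4 := by
      rw [← hc, ← hQ, ← pow_mul, ← pow_mul, ← pow_add]
      congr 1
      rcases l with _ | l
      · simp
      · simp only [Nat.add_sub_cancel]
        ring
    have e11 : q ^ (4 * (l + 1) * (l + 1 - 1)) = q ^ (4 * l * (l - 1)) * c ^ 4 := by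
      rw [← e10]
      congr 1
      simp only [Nat.add_sub_cancel]
      ring
    rw [hk, e1, e2, e4, e5, e7, e8, e9, e10, e11]
    field_simp
    ring
  rw [sum_range_sub'] at key
  have h1 : H 0 = 0 := by
    simp only [hH]
    rw [ip_of_neg (Q ^ 2) (k := ((0 : ℕ) : ℤ) - 1) (by norm_num)]
    simp
  have h2 : H M = 0 := by
    simp only [hH]
    rw [ip_of_neg Q (k := (n : ℤ) + 2 - 2 * M) (by omega)]
    simp
  rw [h1, h2, sub_zero] at key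
  linear_combination key

/-- the `m`-th summand of the right side of (F1); to be used with `Q = q ^ 2` -/
noncomputable def bK (q Q : K) (N : ℕ) (m : ℤ) : K :=
  fpoch Q (2 * N + 1) * (q ^ (15 * m ^ 2 + 7 * m) *
      (ip Q ((N : ℤ) - 3 * m) * ip Q ((N : ℤ) + 1 + 3 * m)) -
    q ^ (15 * m ^ 2 + 13 * m + 2) *
      (ip Q ((N : ℤ) - 1 - 3 * m) * ip Q ((N : ℤ) + 2 + 3 * m)))

theorem bK_key {q Q : K} (hQ : q ^ 2 = Q) (h0 : q ≠ 0) (hp : ∀ n : ℕ, 0 < n → Q ^ n ≠ 1)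
    (n : ℕ) (m : ℤ) :
    bK q Q (n + 2) m - (1 + Q - Q ^ (n + 2)) * bK q Q (n + 1) m +
      Q * (1 - Q ^ (n + 1)) * (1 - Q ^ (2 * n + 3)) * bK q Q n m =
    (- (Q ^ (2 * n + 4) * q ^ (15 * (m + 1) ^ 2 - 5 * (m + 1)) * fpoch Q (2 * n + 3) *
      (ip Q ((n : ℤ) + 2 - 3 * (m + 1)) * ip Q ((n : ℤ) + 1 + 3 * (m + 1))))) -
    (- (Q ^ (2 * n + 4) * q ^ (15 * m ^ 2 - 5 * m) * fpoch Q (2 * n + 3) *
      (ip Q ((n : ℤ) + 2 - 3 * m) * ip Q ((n : ℤ) + 1 + 3 * m)))) := by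
  have hQ0 : Q ≠ 0 := by rw [← hQ]; exact pow_ne_zero 2 h0
  unfold bK
  obtain ⟨a, ha⟩ : ∃ a : K, q ^ m = a := ⟨_, rfl⟩
  obtain ⟨w, hw⟩ : ∃ w : K, q ^ (15 * m ^ 2) = w := ⟨_, rfl⟩
  obtain ⟨x, hx⟩ : ∃ x : K, a ^ 6 = x := ⟨_, rfl⟩
  obtain ⟨y, hy⟩ : ∃ y : K, Q ^ n = y := ⟨_, rfl⟩
  have ha0 : a ≠ 0 := by rw [← ha]; exact zpow_ne_zero _ h0
  have hw0 : w ≠ 0 := by rw [← hw]; exact zpow_ne_zero _ h0
  have hx0 : x ≠ 0 := by rw [← hx]; exact pow_ne_zero _ ha0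
  have hy0 : y ≠ 0 := by rw [← hy]; exact pow_ne_zero _ hQ0
  have x1 : Q ^ (3 * m) = x := by
    rw [← hx, ← ha, ← hQ, ← zpow_natCast (q ^ m) 6, ← zpow_mul, ← zpow_natCast q 2, ← zpow_mul]
    congr 1
    push_cast
    ring
  -- powers `Q ^ (n + c + 3 m)` and `Q ^ (n + c - 3 m)`
  have pp : ∀ c : ℕ, Q ^ ((n : ℤ) + c + 3 * m) = y * Q ^ c * x := by
    intro c
    rw [zpow_add₀ hQ0, zpow_add₀ hQ0, zpow_natCast, zpow_natCast, x1, hy]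
  have pm : ∀ c : ℕ, Q ^ ((n : ℤ) + c - 3 * m) = y * Q ^ c * x⁻¹ := by
    intro c
    rw [zpow_sub₀ hQ0, zpow_add₀ hQ0, zpow_natCast, zpow_natCast, x1, hy, div_eq_mul_inv]
  obtain ⟨I, hI⟩ : ∃ I : K, ip Q ((n : ℤ) + 4 + 3 * m) = I := ⟨_, rfl⟩
  obtain ⟨J, hJ⟩ : ∃ J : K, ip Q ((n : ℤ) + 2 - 3 * m) = J := ⟨_, rfl⟩
  have i3 : ip Q ((n : ℤ) + 3 + 3 * m) = (1 - y * Q ^ 4 * x) * I := by
    rw [← pp 4, ← hI]
    push_cast
    rw [← ip_pred hp]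
    congr 1
    ring
  have i2 : ip Q ((n : ℤ) + 2 + 3 * m) = (1 - y * Q ^ 3 * x) * ip Q ((n : ℤ) + 3 + 3 * m) := by
    rw [← pp 3]
    push_cast
    rw [← ip_pred hp]
    congr 1
    ring
  have i1 : ip Q ((n : ℤ) + 1 + 3 * m) = (1 - y * Q ^ 2 * x) * ip Q ((n : ℤ) + 2 + 3 * m) := by
    rw [← pp 2]
    push_cast
    rw [← ip_pred hp]
    congr 1
    ring
  have j1 : ip Q ((n : ℤ) + 1 - 3 * m) = (1 - y * Q ^ 2 * x⁻¹) * J := by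
    rw [← pm 2, ← hJ]
    push_cast
    rw [← ip_pred hp]
    congr 1
    ring
  have j0 : ip Q ((n : ℤ) - 3 * m) = (1 - y * Q * x⁻¹) * ip Q ((n : ℤ) + 1 - 3 * m) := by
    have := pm 1
    rw [pow_one] at this
    rw [← this]
    push_cast
    rw [← ip_pred hp]
    congr 1
    ring
  have j_1 : ip Q ((n : ℤ) - 1 - 3 * m) = (1 - y * x⁻¹) * ip Q ((n : ℤ) - 3 * m) := by
    have := pm 0
    rw [pow_zero, mul_one] at this
    rw [← this]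
    push_cast
    rw [add_zero, ← ip_pred hp]
    congr 1
    ring
  -- normalise the arguments of `ip`
  have n1 : ip Q (((n + 2 : ℕ) : ℤ) - 3 * m) = J := by
    rw [← hJ]; push_cast; rfl
  have n2 : ip Q (((n + 2 : ℕ) : ℤ) + 1 + 3 * m) = ip Q ((n : ℤ) + 3 + 3 * m) := by
    congr 1 <;> (push_cast; ring)
  have n3 : ip Q (((n + 2 : ℕ) : ℤ) - 1 - 3 * m) = ip Q ((n : ℤ) + 1 - 3 * m) := by
    congr 1 <;> (push_cast; ring)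
  have n4 : ip Q (((n + 2 : ℕ) : ℤ) + 2 + 3 * m) = I := by
    rw [← hI]; congr 1 <;> (push_cast; ring)
  have n5 : ip Q (((n + 1 : ℕ) : ℤ) - 3 * m) = ip Q ((n : ℤ) + 1 - 3 * m) := by
    congr 1
  have n6 : ip Q (((n + 1 : ℕ) : ℤ) + 1 + 3 * m) = ip Q ((n : ℤ) + 2 + 3 * m) := by
    congr 1 <;> (push_cast; ring)
  have n7 : ip Q (((n + 1 : ℕ) : ℤ) - 1 - 3 * m) = ip Q ((n : ℤ) - 3 * m) := by
    congr 1 <;> (push_cast; ring)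
  have n8 : ip Q (((n + 1 : ℕ) : ℤ) + 2 + 3 * m) = ip Q ((n : ℤ) + 3 + 3 * m) := by
    congr 1 <;> (push_cast; ring)
  have n9 : ip Q ((n : ℤ) + 2 - 3 * (m + 1)) = ip Q ((n : ℤ) - 1 - 3 * m) := by
    congr 1 <;> ring
  have n10 : ip Q ((n : ℤ) + 1 + 3 * (m + 1)) = I := by
    rw [← hI]; congr 1 <;> ring
  have P3 : fpoch Q (2 * n + 3) = fpoch Q (2 * n + 1) * (1 - y ^ 2 * Q ^ 2) *
      (1 - y ^ 2 * Q ^ 3) := by
    rw [fpoch_succ, fpoch_succ, ← hy]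
    ring
  have P5 : fpoch Q (2 * (n + 2) + 1) = fpoch Q (2 * n + 3) * (1 - y ^ 2 * Q ^ 4) *
      (1 - y ^ 2 * Q ^ 5) := by
    have : 2 * (n + 2) + 1 = 2 * n + 3 + 1 + 1 := by ring
    rw [this, fpoch_succ, fpoch_succ, ← hy]
    ring
  have P3' : fpoch Q (2 * (n + 1) + 1) = fpoch Q (2 * n + 3) := by
    congr 1
  have z1 : q ^ (15 * m ^ 2 + 7 * m) = w * a ^ 7 := by
    rw [zpow_add₀ h0, hw, ← ha, ← zpow_natCast (q ^ m) 7, ← zpow_mul]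
    congr 2
    push_cast
    ring
  have z2 : q ^ (15 * m ^ 2 + 13 * m + 2) = w * a ^ 7 * x * Q := by
    have e : (15 * m ^ 2 + 13 * m + 2 : ℤ) = 15 * m ^ 2 + m * 13 + 2 := by ring
    rw [e, zpow_add₀ h0, zpow_add₀ h0, zpow_mul q m 13, ha, hw, ← hx, ← hQ]
    have e2 : a ^ (13 : ℤ) = a ^ 13 := by norm_cast
    have e3 : q ^ (2 : ℤ) = q ^ 2 := by norm_cast
    rw [e2, e3]
    ring
  have z3 : q ^ (15 * m ^ 2 - 5 * m) = w * a ^ 7 * (x ^ 2)⁻¹ := by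
    have e : (15 * m ^ 2 - 5 * m : ℤ) = 15 * m ^ 2 - m * 5 := by ring
    rw [e, zpow_sub₀ h0, zpow_mul q m 5, ha, hw, ← hx]
    have e2 : a ^ (5 : ℤ) = a ^ 5 := by norm_cast
    rw [e2]
    field_simp
  have z4 : q ^ (15 * (m + 1) ^ 2 - 5 * (m + 1)) = w * a ^ 7 * x ^ 3 * Q ^ 5 := by
    have e : (15 * (m + 1) ^ 2 - 5 * (m + 1) : ℤ) = 15 * m ^ 2 + m * 25 + 10 := by ring
    rw [e, zpow_add₀ h0, zpow_add₀ h0, zpow_mul q m 25, ha, hw, ← hx, ← hQ]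
    have e2 : a ^ (25 : ℤ) = a ^ 25 := by norm_cast
    have e3 : q ^ (10 : ℤ) = q ^ 10 := by norm_cast
    rw [e2, e3]
    ring
  have y2 : Q ^ (n + 2) = y * Q ^ 2 := by rw [← hy]; ring
  have y3 : Q ^ (n + 1) = y * Q := by rw [← hy]; ring
  have y4 : Q ^ (2 * n + 3) = y ^ 2 * Q ^ 3 := by rw [← hy]; ring
  have y5 : Q ^ (2 * n + 4) = y ^ 2 * Q ^ 4 := by rw [← hy]; ring
  rw [hJ, n1, n2, n3, n4, n5, n6, n7, n8, n9, n10, P5, P3', P3, z1, z2, z3, z4, y2, y3, y4, y5,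
    j_1, j0, j1, i1, i2, i3]
  field_simp
  ring

theorem bK_rec {q Q : K} (hQ : q ^ 2 = Q) (h0 : q ≠ 0) (hp : ∀ n : ℕ, 0 < n → Q ^ n ≠ 1)
    (L n : ℕ) (hL : n + 2 ≤ L) :
    S L (bK q Q (n + 2)) =
      (1 + Q - Q ^ (n + 2)) * S L (bK q Q (n + 1))
        - Q * (1 - Q ^ (n + 1)) * (1 - Q ^ (2 * n + 3)) * S L (bK q Q n) := by
  obtain ⟨G, hG⟩ : ∃ G : ℤ → K, G = fun m => - (Q ^ (2 * n + 4) * q ^ (15 * m ^ 2 - 5 * m) *
    fpoch Q (2 * n + 3) *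
    (ip Q ((n : ℤ) + 2 - 3 * m) * ip Q ((n : ℤ) + 1 + 3 * m))) := ⟨_, rfl⟩
  have h1 : S L (fun m => bK q Q (n + 2) m - (1 + Q - Q ^ (n + 2)) * bK q Q (n + 1) m +
      Q * (1 - Q ^ (n + 1)) * (1 - Q ^ (2 * n + 3)) * bK q Q n m) = 0 := by
    have key : ∀ m : ℤ, bK q Q (n + 2) m - (1 + Q - Q ^ (n + 2)) * bK q Q (n + 1) m +
      Q * (1 - Q ^ (n + 1)) * (1 - Q ^ (2 * n + 3)) * bK q Q n m = G (m + 1) - G m := by
      intro m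
      rw [bK_key hQ h0 hp, hG]
    rw [S_congr L key, S_tele]
    have g1 : G ((L : ℤ) + 1) = 0 := by
      simp only [hG]
      rw [ip_of_neg Q (k := (n : ℤ) + 2 - 3 * ((L : ℤ) + 1)) (by omega)]
      simp
    have g2 : G (-(L : ℤ)) = 0 := by
      simp only [hG]
      rw [ip_of_neg Q (k := (n : ℤ) + 1 + 3 * (-(L : ℤ))) (by omega)]
      simp
    rw [g1, g2, sub_zero]
  rw [S_add, S_sub, S_mul L _ (bK q Q (n + 1)), S_mul L _ (bK q Q n)] at h1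
  linear_combination h1

end Pool.Agent.Lib.MP_c0fb52_nt
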