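import Pool.Agent.Lib.MP_c0fb52_nt.Field2

set_option autoImplicit false

namespace Pool.Agent.Lib.MP_c0fb52_nt

open Finset

variable {K : Type*} [Field K]

theorem ip_eq_inv (p : K) (n : ℕ) : ip p (n : ℤ) = (fpoch p n)⁻¹ := by
  rw [ip_natCast, Ring.inverse_eq_inv']

theorem RK_zero (q Q : K) {M : ℕ} (hM : 0 < M) : RK q Q M 0 = 1 := by
  unfold RK
  rw [sum_eq_single_of_mem 0 (mem_range.mpr hM)]
  · simp [ip_zero]
  · intro l _ hl
    rw [ip_of_neg Q (k := 0 - 2 * (l : ℤ)) (by omega)]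
    simp

theorem RK_one (q Q : K) {M : ℕ} (hM : 0 < M) : RK q Q M 1 = (1 - Q)⁻¹ := by
  unfold RK
  rw [sum_eq_single_of_mem 0 (mem_range.mpr hM)]
  · have := ip_eq_inv Q 1
    rw [Nat.cast_one] at this
    simp [ip_zero, this, fpoch]
  · intro l _ hl
    rw [ip_of_neg Q (k := 1 - 2 * (l : ℤ)) (by omega)]
    simp

theorem SbK_zero {q Q : K} (hp : ∀ n : ℕ, 0 < n → Q ^ n ≠ 1) (L : ℕ) :
    S L (bK q Q 0) = 1 := by
  unfold S
  rw [sum_eq_single_of_mem L (by simp; omega)]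
  · have h1 := ip_eq_inv Q 1
    have h2 := ip_eq_inv Q 2
    have h3 : (1 - Q) ≠ 0 := by
      have := hp 1 one_pos
      rw [pow_one] at this
      exact sub_ne_zero.mpr this.symm
    push_cast at h1 h2
    simp only [bK, sub_self, mul_zero, zero_pow, ne_eq, OfNat.ofNat_ne_zero, not_false_eq_true,
      add_zero, zpow_zero, Nat.cast_zero, sub_zero, zero_add, h1, h2, ip_zero]
    rw [ip_of_neg Q (k := 0 - 1) (by norm_num)]
    simp [fpoch]
    exact mul_inv_cancel₀ h3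
  · intro i _ hi
    unfold bK
    rcases lt_or_gt_of_ne hi with h | h
    · rw [ip_of_neg Q (k := ((0 : ℕ) : ℤ) + 1 + 3 * ((i : ℤ) - L)) (by push_cast; omega),
        ip_of_neg Q (k := ((0 : ℕ) : ℤ) + 2 + 3 * ((i : ℤ) - L)) (by push_cast; omega)]
      simp
    · rw [ip_of_neg Q (k := ((0 : ℕ) : ℤ) - 3 * ((i : ℤ) - L)) (by push_cast; omega),
        ip_of_neg Q (k := ((0 : ℕ) : ℤ) - 1 - 3 * ((i : ℤ) - L)) (by push_cast; omega)]
      simp

theorem SbK_one {q Q : K} (hQ : q ^ 2 = Q) (hp : ∀ n : ℕ, 0 < n → Q ^ n ≠ 1) (L : ℕ)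
    (hL : 1 ≤ L) :
    S L (bK q Q 1) = 1 := by
  unfold S
  rw [sum_eq_add_of_mem L (L - 1) (by simp; omega) (by simp; omega) (by omega)]
  · have h1 := ip_eq_inv Q 1
    have h2 := ip_eq_inv Q 2
    have h3 := ip_eq_inv Q 3
    push_cast at h1 h2 h3
    have d1 : (1 - Q) ≠ 0 := by
      have := hp 1 one_pos
      rw [pow_one] at this
      exact sub_ne_zero.mpr this.symm
    have d2 : (1 - Q ^ 2) ≠ 0 := sub_ne_zero.mpr (hp 2 two_pos).symm
    have d3 : (1 - Q ^ 3) ≠ 0 := sub_ne_zero.mpr (hp 3 three_pos).symm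
    have e1 : ((L : ℕ) : ℤ) - L = 0 := sub_self _
    have e2 : ((L - 1 : ℕ) : ℤ) - L = -1 := by omega
    have f0 : bK q Q 1 0 = fpoch Q 3 * (ip Q 1 * ip Q 2 - Q * (ip Q 0 * ip Q 3)) := by
      simp only [bK]
      norm_num
      left
      left
      exact_mod_cast hQ
    have f1 : bK q Q 1 (-1) = - (fpoch Q 3 * (Q ^ 2 * (ip Q 3 * ip Q 0))) := by
      have e4 : q ^ 4 = Q ^ 2 := by
        rw [← hQ, ← pow_mul]
      simp only [bK]
      norm_num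
      rw [ip_of_neg Q (k := -1) (by norm_num)]
      have e5 : q ^ (4 : ℤ) = q ^ 4 := by norm_cast
      simp only [e5, e4]
      ring
    rw [e1, e2, f0, f1, h1, h2, h3, ip_zero]
    simp only [fpoch, prod_range_succ, range_zero, prod_empty, one_mul, zero_add, pow_one,
      Nat.reduceAdd]
    field_simp
    ring
  · intro i _ hi
    unfold bK
    rcases lt_or_gt_of_ne hi.1 with h | h
    · have : i < L - 1 := by omega
      rw [ip_of_neg Q (k := ((1 : ℕ) : ℤ) + 1 + 3 * ((i : ℤ) - L)) (by push_cast; omega),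
        ip_of_neg Q (k := ((1 : ℕ) : ℤ) + 2 + 3 * ((i : ℤ) - L)) (by push_cast; omega)]
      simp
    · rw [ip_of_neg Q (k := ((1 : ℕ) : ℤ) - 3 * ((i : ℤ) - L)) (by push_cast; omega),
        ip_of_neg Q (k := ((1 : ℕ) : ℤ) - 1 - 3 * ((i : ℤ) - L)) (by push_cast; omega)]
      simp

/-- (F1) -/
theorem F1K {q Q : K} (hQ : q ^ 2 = Q) (h0 : q ≠ 0) (hp : ∀ n : ℕ, 0 < n → Q ^ n ≠ 1)
    (hp2 : ∀ n : ℕ, 0 < n → (Q ^ 2) ^ n ≠ 1) (M N L : ℕ) (hM : N < M) (hL : N ≤ L) :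
    fpoch Q N * RK q Q M N = S L (bK q Q N) := by
  induction N using Nat.strong_induction_on with
  | _ N ih =>
    rcases N with _ | _ | n
    · rw [SbK_zero hp, Nat.cast_zero, RK_zero q Q hM, fpoch_zero, one_mul]
    · have d1 : (1 - Q) ≠ 0 := by
        have := hp 1 one_pos
        rw [pow_one] at this
        exact sub_ne_zero.mpr this.symm
      rw [SbK_one hQ hp L (by omega)]
      simp only [zero_add, Nat.cast_one]
      rw [RK_one q Q (by omega)]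
      simp [fpoch]
      exact mul_inv_cancel₀ d1
    · have i0 := ih n (by omega) (by omega) (by omega)
      have i1 := ih (n + 1) (by omega) (by omega) (by omega)
      have e : n + 1 + 1 = n + 2 := rfl
      rw [e] at *
      have r := RK_rec hQ h0 hp hp2 M n (by omega)
      have b := bK_rec hQ h0 hp L n hL
      rw [b, ← i0, ← i1]
      have c1 : ((n + 2 : ℕ) : ℤ) = (n : ℤ) + 2 := by push_cast; rfl
      have c2 : ((n + 1 : ℕ) : ℤ) = (n : ℤ) + 1 := by push_cast; rfl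
      have f1 : fpoch Q (n + 2) = fpoch Q (n + 1) * (1 - Q ^ (n + 2)) := fpoch_succ Q (n + 1)
      have f2 : fpoch Q (n + 1) = fpoch Q n * (1 - Q ^ (n + 1)) := fpoch_succ Q n
      have s1 : Q ^ (2 * n + 4) = Q * Q ^ (2 * n + 3) := by ring
      rw [c1, c2, f1]
      calc fpoch Q (n + 1) * (1 - Q ^ (n + 2)) * RK q Q M ((n : ℤ) + 2)
          = fpoch Q (n + 1) * ((1 - Q ^ (n + 2)) * RK q Q M ((n : ℤ) + 2)) := by ring
        _ = fpoch Q (n + 1) * ((1 + Q - Q ^ (n + 2)) * RK q Q M ((n : ℤ) + 1)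
            - (Q - Q ^ (2 * n + 4)) * RK q Q M n) := by rw [r]
        _ = _ := by
            rw [s1]
            rw [f2]
            ring

/-- the `m`-th summand of the right side of (F2) -/
noncomputable def bK2 (q Q : K) (N : ℕ) (m : ℤ) : K :=
  fpoch Q (2 * N + 2) * ((q ^ (15 * m ^ 2 + 7 * m) - q ^ (15 * m ^ 2 + 13 * m + 2)) *
      (ip Q ((N : ℤ) - 3 * m) * ip Q ((N : ℤ) + 2 + 3 * m)))

theorem bK2_eq {q Q : K} (hQ : q ^ 2 = Q) (h0 : q ≠ 0) (hp : ∀ n : ℕ, 0 < n → Q ^ n ≠ 1)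
    (N : ℕ) (m : ℤ) : (1 - Q ^ (N + 1)) * bK q Q N m = bK2 q Q N m := by
  have hQ0 : Q ≠ 0 := by rw [← hQ]; exact pow_ne_zero 2 h0
  unfold bK bK2
  obtain ⟨u, hu⟩ : ∃ u : K, q ^ (15 * m ^ 2 + 7 * m) = u := ⟨_, rfl⟩
  obtain ⟨x, hx⟩ : ∃ x : K, Q ^ (3 * m) = x := ⟨_, rfl⟩
  obtain ⟨y, hy⟩ : ∃ y : K, Q ^ N = y := ⟨_, rfl⟩
  have hx0 : x ≠ 0 := by rw [← hx]; exact zpow_ne_zero _ hQ0
  have z2 : q ^ (15 * m ^ 2 + 13 * m + 2) = u * x * Q := by
    have e : (15 * m ^ 2 + 13 * m + 2 : ℤ) = (15 * m ^ 2 + 7 * m) + 2 * (3 * m) + 2 := by ring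
    have e3 : q ^ (2 : ℤ) = q ^ 2 := by norm_cast
    rw [e, zpow_add₀ h0, zpow_add₀ h0, zpow_mul, hu, e3, hQ, hx]
  obtain ⟨I, hI⟩ : ∃ I : K, ip Q ((N : ℤ) + 2 + 3 * m) = I := ⟨_, rfl⟩
  obtain ⟨J, hJ⟩ : ∃ J : K, ip Q ((N : ℤ) - 3 * m) = J := ⟨_, rfl⟩
  have i1 : ip Q ((N : ℤ) + 1 + 3 * m) = (1 - y * Q ^ 2 * x) * I := by
    have : y * Q ^ 2 * x = Q ^ ((N : ℤ) + 2 + 3 * m) := by
      rw [zpow_add₀ hQ0, zpow_add₀ hQ0, zpow_natCast, hx, hy]
      norm_cast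
    rw [this, ← hI, ← ip_pred hp]
    congr 1
    ring
  have j1 : ip Q ((N : ℤ) - 1 - 3 * m) = (1 - y * x⁻¹) * J := by
    have : y * x⁻¹ = Q ^ ((N : ℤ) - 3 * m) := by
      rw [zpow_sub₀ hQ0, zpow_natCast, hx, hy, div_eq_mul_inv]
    rw [this, ← hJ, ← ip_pred hp]
    congr 1
    ring
  have y3 : Q ^ (N + 1) = y * Q := by rw [← hy]; ring
  have P : fpoch Q (2 * N + 2) = fpoch Q (2 * N + 1) * (1 - y ^ 2 * Q ^ 2) := by
    rw [fpoch_succ, ← hy]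
    ring
  rw [hu, z2, i1, j1, hJ, hI, y3, P]
  field_simp
  ring

/-- (F2) -/
theorem F2K {q Q : K} (hQ : q ^ 2 = Q) (h0 : q ≠ 0) (hp : ∀ n : ℕ, 0 < n → Q ^ n ≠ 1)
    (hp2 : ∀ n : ℕ, 0 < n → (Q ^ 2) ^ n ≠ 1) (M N L : ℕ) (hM : N < M) (hL : N ≤ L) :
    fpoch Q (N + 1) * RK q Q M N = S L (bK2 q Q N) := by
  have h := F1K hQ h0 hp hp2 M N L hM hL
  have h2 : S L (bK2 q Q N) = (1 - Q ^ (N + 1)) * S L (bK q Q N) := by
    rw [← S_mul]
    exact S_congr L fun j => (bK2_eq hQ h0 hp N j).symm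
  rw [h2, ← h, fpoch_succ]
  ring

end Pool.Agent.Lib.MP_c0fb52_nt
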