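import Pool.Agent.Lib.MP_c0fb52_nt.Field3

set_option autoImplicit false

/-!
Formal power series with the coefficientwise topology: sums and products.
-/

namespace Pool.Agent.Lib.MP_c0fb52_nt

open Finset PowerSeries PowerSeries.WithPiTopology Filter Topology

theorem eq_of_forall_dvd {a b : ℤ⟦X⟧} (h : ∀ n : ℕ, (X : ℤ⟦X⟧) ^ n ∣ a - b) : a = b := by
  rw [← sub_eq_zero]
  ext n
  rw [map_zero]
  exact X_pow_dvd_iff.mp (h (n + 1)) n (Nat.lt_succ_self n)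

theorem isClosed_dvd (n : ℕ) : IsClosed {a : ℤ⟦X⟧ | (X : ℤ⟦X⟧) ^ n ∣ a} := by
  have : {a : ℤ⟦X⟧ | (X : ℤ⟦X⟧) ^ n ∣ a} = ⋂ m ∈ Set.Iio n, {a | coeff m a = 0} := by
    ext a
    simp only [Set.mem_ofPred_eq, Set.mem_iInter, Set.mem_Iio, X_pow_dvd_iff]
  rw [this]
  apply isClosed_biInter
  intro m _
  exact isClosed_eq (continuous_coeff ℤ m) continuous_const

theorem dvd_tsum {ι : Type*} {f : ι → ℤ⟦X⟧} {n : ℕ} (h : ∀ i, (X : ℤ⟦X⟧) ^ n ∣ f i) :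
    (X : ℤ⟦X⟧) ^ n ∣ ∑' i, f i := by
  by_cases hs : Summable f
  · exact (isClosed_dvd n).mem_of_tendsto hs.hasSum
      (Eventually.of_forall fun s => Finset.dvd_sum fun i _ => h i)
  · rw [tsum_eq_zero_of_not_summable hs]
    exact dvd_zero _

theorem summable_of_dvd {ι : Type*} {f : ι → ℤ⟦X⟧} (e : ι → ℕ) (he : ∀ n, {i | e i ≤ n}.Finite)
    (h : ∀ i, (X : ℤ⟦X⟧) ^ e i ∣ f i) : Summable f := by
  rw [summable_iff_summable_coeff]
  intro n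
  apply summable_of_hasFiniteSupport
  apply (he n).subset
  intro i hi
  rw [Function.mem_support] at hi
  by_contra hcon
  simp only [Set.mem_ofPred_eq, not_le] at hcon
  exact hi (X_pow_dvd_iff.mp (h i) n hcon)

theorem finite_nat {e : ℕ → ℕ} (he : ∀ i, i ≤ e i + 1) (n : ℕ) : {i | e i ≤ n}.Finite := by
  apply (Set.finite_Iic (n + 1)).subset
  intro i hi
  have := he i
  simp only [Set.mem_ofPred_eq, Set.mem_Iic] at *
  omega

theorem finite_int {e : ℤ → ℕ} (he : ∀ i, i.natAbs ≤ e i + 1) (n : ℕ) : {i | e i ≤ n}.Finite := by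
  apply (Set.finite_Icc (-(n + 1 : ℤ)) (n + 1)).subset
  intro i hi
  have := he i
  simp only [Set.mem_ofPred_eq, Set.mem_Icc] at *
  omega

theorem finite_prod {α β : Type*} {e : α × β → ℕ} {a : α → ℕ} {b : β → ℕ}
    (ha : ∀ n, {i | a i ≤ n}.Finite) (hb : ∀ n, {i | b i ≤ n}.Finite)
    (he : ∀ x, a x.1 ≤ e x ∧ b x.2 ≤ e x) (n : ℕ) : {x | e x ≤ n}.Finite := by
  apply ((ha n).prod (hb n)).subset
  intro x hx
  simp only [Set.mem_ofPred_eq, Set.mem_prod] at *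
  exact ⟨(he x).1.trans hx, (he x).2.trans hx⟩

/-- `(x;p)_∞` -/
noncomputable def pinf (x p : ℤ⟦X⟧) : ℤ⟦X⟧ := ∏' m : ℕ, (1 - x * p ^ m)

theorem multipliable_pinf (x : ℤ⟦X⟧) {p : ℤ⟦X⟧} (hp : (X : ℤ⟦X⟧) ∣ p) :
    Multipliable fun m : ℕ => 1 - x * p ^ m := by
  have h : Tendsto (fun i : ℕ ↦ (-(x * p ^ i)).order) atTop (nhds ⊤) := by
    refine ENat.tendsto_nhds_top_iff_natCast_lt.mpr (fun n ↦ Filter.eventually_atTop.mpr
      ⟨n + 1, ?_⟩)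
    intro m hm
    have h1 : (X : ℤ⟦X⟧) ^ m ∣ -(x * p ^ m) := by
      rw [dvd_neg]
      exact Dvd.dvd.mul_left (pow_dvd_pow_of_dvd hp m) x
    have h2 : (m : ℕ∞) ≤ (-(x * p ^ m)).order := nat_le_order _ _ (X_pow_dvd_iff.mp h1)
    refine lt_of_lt_of_le ?_ h2
    exact_mod_cast hm
  have := multipliable_one_add_of_tendsto_order_atTop_nhds_top ℤ h
  simpa [sub_eq_add_neg] using this

theorem pinf_step (x : ℤ⟦X⟧) {p : ℤ⟦X⟧} (hp : (X : ℤ⟦X⟧) ∣ p) :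
    pinf x p = (1 - x) * pinf (x * p) p := by
  have hf : (fun m : ℕ => (1 - x * p ^ (m + 1))) = fun m : ℕ => (1 - x * p * p ^ m) :=
    funext fun m => by ring
  have h : Multipliable fun m : ℕ => (1 - x * p ^ (m + 1)) := by
    rw [hf]
    exact multipliable_pinf (x * p) hp
  have h1 := tprod_eq_zero_mul' (f := fun m : ℕ => (1 - x * p ^ m)) h
  rw [hf, pow_zero, mul_one] at h1
  exact h1

theorem pinf_dvd {x p : ℤ⟦X⟧} (hp : (X : ℤ⟦X⟧) ∣ p) {n : ℕ} (hx : (X : ℤ⟦X⟧) ^ n ∣ x) :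
    (X : ℤ⟦X⟧) ^ n ∣ pinf x p - 1 := by
  have h1 := (multipliable_pinf x hp).hasProd
  have hc : IsClosed {a : ℤ⟦X⟧ | (X : ℤ⟦X⟧) ^ n ∣ a - 1} := by
    have : {a : ℤ⟦X⟧ | (X : ℤ⟦X⟧) ^ n ∣ a - 1} =
        (fun a => a - 1) ⁻¹' {a : ℤ⟦X⟧ | (X : ℤ⟦X⟧) ^ n ∣ a} := rfl
    rw [this]
    exact (isClosed_dvd n).preimage (continuous_id.sub continuous_const)
  apply hc.mem_of_tendsto h1
  apply Eventually.of_forall
  intro s
  change (X : ℤ⟦X⟧) ^ n ∣ ∏ m ∈ s, (1 - x * p ^ m) - 1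
  classical
  induction s using Finset.induction_on with
  | empty => simp
  | insert a s ha ih =>
    rw [prod_insert ha]
    have e : (1 - x * p ^ a) * ∏ m ∈ s, (1 - x * p ^ m) - 1 =
        (∏ m ∈ s, (1 - x * p ^ m) - 1) - x * (p ^ a * ∏ m ∈ s, (1 - x * p ^ m)) := by ring
    rw [e]
    exact dvd_sub ih (Dvd.dvd.mul_right hx _)

/-- A function satisfying the functional equation of `(x;p)_∞` equals it. -/
theorem eq_pinf {p : ℤ⟦X⟧} (hp : (X : ℤ⟦X⟧) ∣ p) (F : ℤ⟦X⟧ → ℤ⟦X⟧)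
    (h1 : ∀ x, F x = (1 - x) * F (x * p))
    (h2 : ∀ (n : ℕ) (y : ℤ⟦X⟧), (X : ℤ⟦X⟧) ^ n ∣ y → (X : ℤ⟦X⟧) ^ n ∣ F y - 1) (x : ℤ⟦X⟧) :
    F x = pinf x p := by
  have h3 : ∀ n : ℕ, F x = (∏ m ∈ range n, (1 - x * p ^ m)) * F (x * p ^ n) := by
    intro n
    induction n with
    | zero => simp
    | succ n ih =>
      rw [prod_range_succ, ih, h1 (x * p ^ n)]
      have : x * p ^ n * p = x * p ^ (n + 1) := by ring
      rw [this]
      ring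
  have h4 : ∀ n : ℕ, pinf x p = (∏ m ∈ range n, (1 - x * p ^ m)) * pinf (x * p ^ n) p := by
    intro n
    induction n with
    | zero => simp
    | succ n ih =>
      rw [prod_range_succ, ih, pinf_step (x * p ^ n) hp]
      have : x * p ^ n * p = x * p ^ (n + 1) := by ring
      rw [this]
      ring
  apply eq_of_forall_dvd
  intro n
  have hd : (X : ℤ⟦X⟧) ^ n ∣ x * p ^ n := Dvd.dvd.mul_left (pow_dvd_pow_of_dvd hp n) x
  have e : F x - pinf x p = (∏ m ∈ range n, (1 - x * p ^ m)) *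
      ((F (x * p ^ n) - 1) - (pinf (x * p ^ n) p - 1)) := by
    rw [h3 n, h4 n]
    ring
  rw [e]
  exact Dvd.dvd.mul_left (dvd_sub (h2 n _ hd) (pinf_dvd hp hd)) _

theorem pinf_split (x : ℤ⟦X⟧) {p : ℤ⟦X⟧} (hp : (X : ℤ⟦X⟧) ∣ p) (n : ℕ) :
    pinf x p = (∏ m ∈ range n, (1 - x * p ^ m)) * pinf (x * p ^ n) p := by
  induction n with
  | zero => simp
  | succ n ih =>
    rw [prod_range_succ, ih, pinf_step (x * p ^ n) hp]
    have : x * p ^ n * p = x * p ^ (n + 1) := by ring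
    rw [this]
    ring

theorem pinf_mul_neg (x : ℤ⟦X⟧) {p : ℤ⟦X⟧} (hp : (X : ℤ⟦X⟧) ∣ p) :
    pinf x p * pinf (-x) p = pinf (x ^ 2) (p ^ 2) := by
  unfold pinf
  rw [← (multipliable_pinf x hp).tprod_mul (multipliable_pinf (-x) hp)]
  exact tprod_congr fun m => by ring

theorem pinf_even_odd (x : ℤ⟦X⟧) {p : ℤ⟦X⟧} (hp : (X : ℤ⟦X⟧) ∣ p) :
    pinf x (p ^ 2) * pinf (x * p) (p ^ 2) = pinf x p := by
  have hp2 : (X : ℤ⟦X⟧) ∣ p ^ 2 := dvd_pow hp two_ne_zero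
  have h1 := multipliable_pinf x hp2
  have h2 := multipliable_pinf (x * p) hp2
  unfold pinf
  have f1 : (fun k : ℕ => 1 - x * p ^ (2 * k)) = fun k : ℕ => 1 - x * (p ^ 2) ^ k :=
    funext fun k => by rw [pow_mul]
  have f2 : (fun k : ℕ => 1 - x * p ^ (2 * k + 1)) = fun k : ℕ => 1 - x * p * (p ^ 2) ^ k :=
    funext fun k => by rw [pow_succ, pow_mul]; ring
  have h1' : Multipliable fun k : ℕ => 1 - x * p ^ (2 * k) := by rw [f1]; exact h1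
  have h2' : Multipliable fun k : ℕ => 1 - x * p ^ (2 * k + 1) := by rw [f2]; exact h2
  have h3 := tprod_even_mul_odd (f := fun m : ℕ => 1 - x * p ^ m) h1' h2'
  rw [f1, f2] at h3
  exact h3

theorem pinf_ne_zero {x p : ℤ⟦X⟧} (hp : (X : ℤ⟦X⟧) ∣ p) (hx : (X : ℤ⟦X⟧) ∣ x) :
    pinf x p ≠ 0 := by
  intro h
  have h1 := pinf_dvd (x := x) hp (n := 1) (by rwa [pow_one])
  rw [h, pow_one, X_dvd_iff] at h1
  simp at h1

theorem isUnit_of_dvd {a : ℤ⟦X⟧} (h : (X : ℤ⟦X⟧) ∣ a - 1) : IsUnit a := by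
  rw [PowerSeries.isUnit_iff_constantCoeff]
  have := X_dvd_iff.mp h
  rw [map_sub, sub_eq_zero] at this
  rw [this, map_one]
  exact isUnit_one

theorem isUnit_pinf {x p : ℤ⟦X⟧} (hp : (X : ℤ⟦X⟧) ∣ p) (hx : (X : ℤ⟦X⟧) ∣ x) :
    IsUnit (pinf x p) := by
  apply isUnit_of_dvd
  have h1 := pinf_dvd (x := x) hp (n := 1) (by rwa [pow_one])
  rwa [pow_one] at h1

theorem fpoch_dvd {p : ℤ⟦X⟧} (hp : (X : ℤ⟦X⟧) ∣ p) (n : ℕ) : (X : ℤ⟦X⟧) ∣ fpoch p n - 1 := by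
  induction n with
  | zero => simp [fpoch_zero]
  | succ n ih =>
    rw [fpoch_succ]
    have e : fpoch p n * (1 - p ^ (n + 1)) - 1 = (fpoch p n - 1) - p * (p ^ n * fpoch p n) := by
      ring
    rw [e]
    exact dvd_sub ih (Dvd.dvd.mul_right hp _)

theorem isUnit_fpoch {p : ℤ⟦X⟧} (hp : (X : ℤ⟦X⟧) ∣ p) (n : ℕ) : IsUnit (fpoch p n) :=
  isUnit_of_dvd (fpoch_dvd hp n)

theorem fpoch_mul_ip {p : ℤ⟦X⟧} (hp : (X : ℤ⟦X⟧) ∣ p) (n : ℕ) : fpoch p n * ip p (n : ℤ) = 1 := by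
  rw [ip_natCast]
  exact Ring.mul_inverse_cancel _ (isUnit_fpoch hp n)

theorem ip_succ {p : ℤ⟦X⟧} (hp : (X : ℤ⟦X⟧) ∣ p) (n : ℕ) :
    ip p (n : ℤ) = (1 - p ^ (n + 1)) * ip p ((n : ℤ) + 1) := by
  have h1 := fpoch_mul_ip hp n
  have h2 := fpoch_mul_ip hp (n + 1)
  rw [fpoch_succ] at h2
  push_cast at h2
  have h3 : fpoch p n * ip p (n : ℤ) = fpoch p n * ((1 - p ^ (n + 1)) * ip p ((n : ℤ) + 1)) := by
    linear_combination h1 - h2
  exact (isUnit_fpoch hp n).mul_left_cancel h3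

/-- `(1 - p^k) / (p;p)_k = 1/(p;p)_(k-1)` -/
theorem ip_pred' {p : ℤ⟦X⟧} (hp : (X : ℤ⟦X⟧) ∣ p) (n : ℕ) :
    ip p ((n : ℤ) - 1) = (1 - p ^ n) * ip p (n : ℤ) := by
  rcases n with _ | n
  · rw [ip_of_neg p (by norm_num)]
    simp
  · rw [Nat.cast_succ, add_sub_cancel_right]
    exact ip_succ hp n

theorem choose_two_ge (M : ℕ) : M ≤ M.choose 2 + 1 := by
  induction M with
  | zero => simp
  | succ n ih =>
    rw [Nat.choose_succ_succ' n 1, Nat.choose_one_right]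
    rcases n with _ | n
    · simp
    · omega

theorem euler_summable (x : ℤ⟦X⟧) {p : ℤ⟦X⟧} (hp : (X : ℤ⟦X⟧) ∣ p) (g : ℕ → ℤ⟦X⟧) :
    Summable fun M : ℕ => p ^ (M.choose 2) * x ^ M * g M := by
  refine summable_of_dvd (fun M : ℕ => M.choose 2)
    (fun n => finite_nat (e := fun M : ℕ => M.choose 2) choose_two_ge n) (fun M => ?_)
  rw [mul_assoc]
  exact Dvd.dvd.mul_right (pow_dvd_pow_of_dvd hp _) _

/-- Euler: `∑ p^(M choose 2) x^M / (p;p)_M = (-x;p)_∞` -/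
theorem euler (x : ℤ⟦X⟧) {p : ℤ⟦X⟧} (hp : (X : ℤ⟦X⟧) ∣ p) :
    ∑' M : ℕ, p ^ (M.choose 2) * x ^ M * ip p (M : ℤ) = pinf (-x) p := by
  have key := eq_pinf hp (fun y => ∑' M : ℕ, p ^ (M.choose 2) * (-y) ^ M * ip p (M : ℤ)) ?_ ?_ (-x)
  · simp only [neg_neg] at key
    exact key
  · intro y
    have s1 := euler_summable (-y) hp (fun M => ip p (M : ℤ))
    have s2 := euler_summable (-(y * p)) hp (fun M => ip p (M : ℤ))
    have e1 : ∑' M : ℕ, p ^ (M.choose 2) * (-y) ^ M * ip p (M : ℤ) -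
        ∑' M : ℕ, p ^ (M.choose 2) * (-(y * p)) ^ M * ip p (M : ℤ) =
        (-y) * ∑' M : ℕ, p ^ (M.choose 2) * (-(y * p)) ^ M * ip p (M : ℤ) := by
      rw [← s1.tsum_sub s2, ← s2.tsum_mul_left, (s1.sub s2).tsum_eq_zero_add]
      simp only [Nat.choose_zero_succ, pow_zero, mul_one, one_mul, sub_self, zero_add]
      apply tsum_congr
      intro M
      rw [ip_succ hp M, Nat.choose_succ_succ' M 1, Nat.choose_one_right]
      push_cast
      ring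
    have e2 : ∑' M : ℕ, p ^ (M.choose 2) * (-y) ^ M * ip p (M : ℤ) =
        (1 - y) * ∑' M : ℕ, p ^ (M.choose 2) * (-(y * p)) ^ M * ip p (M : ℤ) := by
      linear_combination e1
    exact e2
  · intro n y hy
    have s1 := euler_summable (-y) hp (fun M => ip p (M : ℤ))
    rw [s1.tsum_eq_zero_add]
    simp only [Nat.choose_zero_succ, pow_zero, mul_one, one_mul, Nat.cast_zero]
    have h0 : ip p (0 : ℤ) = 1 := by
      have := fpoch_mul_ip hp 0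
      rw [fpoch_zero, one_mul] at this
      exact_mod_cast this
    rw [h0, add_sub_cancel_left]
    apply dvd_tsum
    intro M
    have : p ^ (M + 1).choose 2 * (-y) ^ (M + 1) * ip p ((M + 1 : ℕ) : ℤ) =
        y * (-(p ^ (M + 1).choose 2 * (-y) ^ M * ip p ((M + 1 : ℕ) : ℤ))) := by
      ring
    rw [this]
    exact Dvd.dvd.mul_right hy _

end Pool.Agent.Lib.MP_c0fb52_nt
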