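import Pool.Agent.Lib.MP_c0fb52_nt.Assembly

set_option autoImplicit false

/-!
Reduction of the quadruple sum to the single sum over `N`.
-/

namespace Pool.Agent.Lib.MP_c0fb52_nt

open Finset PowerSeries PowerSeries.WithPiTopology Filter Topology

theorem X_dvd_X : (X : ℤ⟦X⟧) ∣ X := dvd_refl _

theorem X_dvd_X4 : (X : ℤ⟦X⟧) ∣ (X ^ 2) ^ 2 := dvd_pow X_dvd_X_sq two_ne_zero

noncomputable def bb (M : ℤ) (j : ℕ) : ℤ⟦X⟧ :=
  X ^ ((M - 2 * j).toNat.choose 2) * (ip X (M - 2 * j) * ip (X ^ 2) (j : ℤ))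

theorem bb_zero {M : ℤ} {j : ℕ} (h : M < 2 * j) : bb M j = 0 := by
  unfold bb
  rw [ip_of_neg X (k := M - 2 * (j : ℤ)) (by omega)]
  simp

/-- `(1 - X^(2j)) bb M j` as a shifted term -/
theorem bb_shift (M : ℤ) (j : ℕ) : (1 - X ^ (2 * (j + 1))) * bb M (j + 1) = bb (M - 2) j := by
  unfold bb
  have h := ip_pred' X_dvd_X_sq (j + 1)
  have e1 : ((j + 1 : ℕ) : ℤ) - 1 = (j : ℤ) := by push_cast; ring
  rw [e1, ← pow_mul] at h
  have e2 : M - 2 * ((j + 1 : ℕ) : ℤ) = M - 2 - 2 * (j : ℤ) := by push_cast; ring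
  rw [e2, h]
  ring

theorem bb_second (M : ℕ) (j : ℕ) :
    X ^ (2 * j) * (1 - X ^ (M + 1 - 2 * j)) * bb ((M : ℤ) + 1) j = X ^ M * bb M j := by
  rcases lt_or_ge (M + 1) (2 * j) with h | h
  · rw [bb_zero (by omega), bb_zero (by omega)]
    simp
  · obtain ⟨i, hi⟩ : ∃ i, M + 1 = 2 * j + i := ⟨M + 1 - 2 * j, by omega⟩
    have e1 : (M : ℤ) + 1 - 2 * (j : ℤ) = (i : ℤ) := by omega
    have e2 : M + 1 - 2 * j = i := by omega
    have e3 : (M : ℤ) - 2 * (j : ℤ) = (i : ℤ) - 1 := by omega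
    unfold bb
    rw [e1, e2, e3]
    have h1 := ip_pred' X_dvd_X i
    rcases i with _ | i
    · rw [ip_of_neg X (k := ((0 : ℕ) : ℤ) - 1) (by norm_num)]
      simp
    · rw [h1, Int.toNat_natCast]
      have e4 : (((i + 1 : ℕ) : ℤ) - 1).toNat = i := by omega
      have e5 : M = 2 * j + i := by omega
      rw [e4, e5, Nat.choose_succ_succ' i 1, Nat.choose_one_right]
      ring

theorem U_eq (n : ℕ) : ∀ M : ℤ, M ≤ n → ∀ J : ℕ, M < 2 * J →
    ∑ j ∈ range J, bb M j = ip X M := by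
  induction n with
  | zero =>
    intro M hM J hJ
    rcases lt_or_ge M 0 with h | h
    · rw [ip_of_neg X h]
      exact sum_eq_zero fun j _ => bb_zero (by omega)
    · have h0 : M = 0 := by omega
      subst h0
      rw [sum_eq_single_of_mem 0 (by simp; omega)]
      · have h2 := fpoch_mul_ip X_dvd_X_sq 0
        rw [fpoch_zero, one_mul, Nat.cast_zero] at h2
        unfold bb
        simp [h2]
      · intro j _ hj
        exact bb_zero (by omega)
  | succ n ih =>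
    intro M hM J hJ
    rcases lt_or_ge M (n + 1) with h | h
    · exact ih M (by omega) J hJ
    · have h0 : M = (n : ℤ) + 1 := by push_cast at hM; omega
      subst h0
      obtain ⟨J', rfl⟩ : ∃ J', J = J' + 1 := ⟨J - 1, by omega⟩
      have key : (1 - X ^ (n + 1)) * ∑ j ∈ range (J' + 1), bb ((n : ℤ) + 1) j =
          ip X ((n : ℤ) + 1 - 2) + X ^ n * ip X (n : ℤ) := by
        have t1 : ∀ j ∈ range (J' + 1), (1 - X ^ (n + 1)) * bb ((n : ℤ) + 1) j =
            (1 - X ^ (2 * j)) * bb ((n : ℤ) + 1) j + X ^ n * bb n j := by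
          intro j _
          rw [← bb_second]
          rcases lt_or_ge (n + 1) (2 * j) with h3 | h3
          · rw [bb_zero (by omega)]
            simp
          · have e : (X : ℤ⟦X⟧) ^ (n + 1) = X ^ (2 * j) * X ^ (n + 1 - 2 * j) := by
              rw [← pow_add]
              congr 1
              omega
            rw [e]
            ring
        rw [mul_sum, sum_congr rfl t1, sum_add_distrib, ← mul_sum, sum_range_succ']
        simp only [mul_zero, pow_zero, sub_self, zero_mul, add_zero]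
        rw [sum_congr rfl fun j _ => bb_shift ((n : ℤ) + 1) j,
          ih ((n : ℤ) + 1 - 2) (by omega) J' (by omega), ih n le_rfl (J' + 1) (by omega)]
      have e1 : (n : ℤ) + 1 - 2 = (n : ℤ) - 1 := by ring
      have h1 := ip_pred' X_dvd_X n
      have h2 := ip_succ X_dvd_X n
      rw [e1, h1] at key
      have hne : (1 - X ^ (n + 1) : ℤ⟦X⟧) ≠ 0 := by
        intro h5
        exact X_pow_ne_one (Nat.succ_pos n) (sub_eq_zero.mp h5).symm
      apply mul_left_cancel₀ hne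
      rw [key, ← h2]
      ring

noncomputable def aa (M j : ℕ) : ℤ⟦X⟧ := X ^ (2 * j) * bb M j

theorem T_eq (M : ℕ) : ∑' j, aa M j = ip X (M : ℤ) - ip X ((M : ℤ) - 2) := by
  rw [tsum_eq_sum (s := range (M + 1 + 1))]
  · have h1 : ∀ j ∈ range (M + 1 + 1), aa M j = bb M j - (1 - X ^ (2 * j)) * bb M j := by
      intro j _
      unfold aa
      ring
    rw [sum_congr rfl h1, sum_sub_distrib, U_eq M M le_rfl (M + 1 + 1) (by omega),
      sum_range_succ' (fun j => (1 - X ^ (2 * j)) * bb (M : ℤ) j)]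
    simp only [mul_zero, pow_zero, sub_self, zero_mul, add_zero]
    rw [sum_congr rfl fun j _ => bb_shift (M : ℤ) j,
      U_eq M ((M : ℤ) - 2) (by omega) (M + 1) (by omega)]
  · intro j hj
    rw [Finset.mem_range, not_lt] at hj
    unfold aa
    rw [bb_zero (by omega)]
    simp

/-- sum over `M` -/
theorem sum_M (x : ℤ⟦X⟧) :
    ∑' M : ℕ, X ^ (M.choose 2) * x ^ M * (ip X (M : ℤ) - ip X ((M : ℤ) - 2)) =
      pinf (-(x * X)) X + x * pinf (-(x * X ^ 2)) X := by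
  have s1 := euler_summable x X_dvd_X (fun M => ip X (M : ℤ))
  have s2 := euler_summable x X_dvd_X (fun M => ip X ((M : ℤ) - 2))
  have s3 := euler_summable (x * X ^ 2) X_dvd_X (fun M => ip X (M : ℤ))
  have e0 : ∀ M : ℕ, X ^ (M.choose 2) * x ^ M * (ip X (M : ℤ) - ip X ((M : ℤ) - 2)) =
      X ^ (M.choose 2) * x ^ M * ip X (M : ℤ) - X ^ (M.choose 2) * x ^ M * ip X ((M : ℤ) - 2) := by
    intro M
    ring
  rw [tsum_congr e0, s1.tsum_sub s2, euler x X_dvd_X]
  have e1 : ∑' M : ℕ, X ^ (M.choose 2) * x ^ M * ip X ((M : ℤ) - 2) =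
      X * x ^ 2 * pinf (-(x * X ^ 2)) X := by
    rw [← euler (x * X ^ 2) X_dvd_X, ← s3.tsum_mul_left, ← s2.sum_add_tsum_nat_add 2,
      sum_range_succ, sum_range_one]
    rw [ip_of_neg X (k := ((0 : ℕ) : ℤ) - 2) (by norm_num),
      ip_of_neg X (k := ((1 : ℕ) : ℤ) - 2) (by norm_num)]
    simp only [mul_zero, zero_add]
    apply tsum_congr
    intro M
    have e2 : ((M + 2 : ℕ) : ℤ) - 2 = (M : ℤ) := by push_cast; ring
    have e3 : (M + 2).choose 2 = M.choose 2 + 2 * M + 1 := by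
      rw [Nat.choose_succ_succ' (M + 1) 1, Nat.choose_succ_succ' M 1, Nat.choose_one_right,
        Nat.choose_one_right]
      ring
    rw [e2, e3]
    ring
  have h1 := pinf_step (-x) X_dvd_X
  have h2 := pinf_step (-x * X) X_dvd_X
  have e4 : -x * X * X = -(x * X ^ 2) := by ring
  have e5 : -(x * X) = -x * X := by ring
  rw [e4] at h2
  rw [e1, e5, h1, h2]
  ring

/-- outer factor -/
noncomputable def outc (N l : ℕ) : ℤ⟦X⟧ :=
  (-1) ^ N * X ^ (N ^ 2) * (X ^ (4 * l * (l + 1)) *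
    (ip ((X ^ 2) ^ 2) (l : ℤ) * ip (X ^ 2) ((N : ℤ) - 2 * l)))

/-- inner factor -/
noncomputable def inn (N M j : ℕ) : ℤ⟦X⟧ :=
  X ^ (M.choose 2) * (X ^ (2 * N + 1)) ^ M * aa M j

/-- the summand over `((N, l), (M, j))` -/
noncomputable def gg (x : (ℕ × ℕ) × (ℕ × ℕ)) : ℤ⟦X⟧ :=
  outc x.1.1 x.1.2 * inn x.1.1 x.2.1 x.2.2

theorem outc_dvd (N l : ℕ) : (X : ℤ⟦X⟧) ^ (N + l) ∣ outc N l := by
  unfold outc
  rw [pow_add]
  refine mul_dvd_mul (Dvd.dvd.mul_left (pow_dvd_pow X ?_) _)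
    (Dvd.dvd.mul_right (pow_dvd_pow X ?_) _)
  · exact Nat.le_self_pow two_ne_zero N
  · nlinarith

theorem inn_dvd (N M j : ℕ) : (X : ℤ⟦X⟧) ^ (M + j) ∣ inn N M j := by
  unfold inn aa
  rw [pow_add]
  refine mul_dvd_mul (Dvd.dvd.mul_left ?_ _) (Dvd.dvd.mul_right (pow_dvd_pow X ?_) _)
  · rw [← pow_mul]
    apply pow_dvd_pow
    nlinarith
  · omega

theorem finite_add (n : ℕ) : {x : ℕ × ℕ | x.1 + x.2 ≤ n}.Finite :=
  finite_prod (e := fun x : ℕ × ℕ => x.1 + x.2) (a := fun i : ℕ => i) (b := fun j : ℕ => j)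
    (fun n => finite_nat (e := fun i => i) (fun i => by omega) n)
    (fun n => finite_nat (e := fun i => i) (fun i => by omega) n)
    (fun x => ⟨by omega, by omega⟩) n

theorem summable_gg : Summable gg := by
  refine summable_of_dvd (fun x : (ℕ × ℕ) × (ℕ × ℕ) => (x.1.1 + x.1.2) + (x.2.1 + x.2.2))
    (fun n => ?_) (fun x => ?_)
  · exact finite_prod (a := fun x : ℕ × ℕ => x.1 + x.2) (b := fun x : ℕ × ℕ => x.1 + x.2)
      finite_add finite_add (fun x => ⟨by omega, by omega⟩) n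
  · rw [pow_add]
    exact mul_dvd_mul (outc_dvd _ _) (inn_dvd _ _ _)

theorem summable_inn (N : ℕ) : Summable fun y : ℕ × ℕ => inn N y.1 y.2 :=
  summable_of_dvd (fun x : ℕ × ℕ => x.1 + x.2) finite_add (fun x => inn_dvd N x.1 x.2)

theorem summable_aa (M : ℕ) : Summable (aa M) :=
  summable_of_dvd (fun j => j) (fun n => finite_nat (e := fun i => i) (fun i => by omega) n)
    (fun j => by
      unfold aa
      exact Dvd.dvd.mul_right (pow_dvd_pow X (by omega)) _)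

theorem summable_inn' (N M : ℕ) : Summable fun j : ℕ => inn N M j :=
  (summable_aa M).mul_left _

theorem tsum_inn (N M : ℕ) : ∑' j, inn N M j =
    X ^ (M.choose 2) * (X ^ (2 * N + 1)) ^ M * (ip X (M : ℤ) - ip X ((M : ℤ) - 2)) := by
  rw [← T_eq, ← (summable_aa M).tsum_mul_left]
  rfl

theorem inner_eq (N : ℕ) : ∑' y : ℕ × ℕ, inn N y.1 y.2 =
      pinf (-X ^ (2 * N + 2)) X + X ^ (2 * N + 1) * pinf (-X ^ (2 * N + 3)) X := by
  have h := (summable_inn N).tsum_prod' (fun M => summable_inn' N M)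
  rw [h, tsum_congr (tsum_inn N), sum_M]
  have e1 : (X : ℤ⟦X⟧) ^ (2 * N + 1) * X = X ^ (2 * N + 2) := by ring
  have e2 : (X : ℤ⟦X⟧) ^ (2 * N + 1) * X ^ 2 = X ^ (2 * N + 3) := by ring
  rw [e1, e2]

/-- value of the inner sum -/
noncomputable def Dn (N : ℕ) : ℤ⟦X⟧ :=
  pinf (-X ^ (2 * N + 2)) X + X ^ (2 * N + 1) * pinf (-X ^ (2 * N + 3)) X

theorem tsum_gg_inner (b : ℕ × ℕ) : ∑' c : ℕ × ℕ, gg (b, c) = outc b.1 b.2 * Dn b.1 := by
  rw [Dn, ← inner_eq b.1, ← (summable_inn b.1).tsum_mul_left]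
  rfl

theorem summable_outer : Summable fun b : ℕ × ℕ => outc b.1 b.2 * Dn b.1 :=
  summable_of_dvd (fun x : ℕ × ℕ => x.1 + x.2) finite_add
    (fun x => Dvd.dvd.mul_right (outc_dvd x.1 x.2) _)

theorem summable_outc (N : ℕ) : Summable fun l => outc N l :=
  summable_of_dvd (fun l => l) (fun n => finite_nat (e := fun i => i) (fun i => by omega) n)
    (fun l => (pow_dvd_pow X (by omega)).trans (outc_dvd N l))

theorem tsum_outc (N : ℕ) : ∑' l, outc N l = (-1) ^ N * X ^ (N ^ 2) * RA N := by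
  have s2 : Summable fun l : ℕ => X ^ (4 * l * (l + 1)) *
      (ip ((X ^ 2) ^ 2) (l : ℤ) * ip (X ^ 2 : ℤ⟦X⟧) ((N : ℤ) - 2 * l)) := by
    refine summable_of_dvd (fun l => l)
      (fun n => finite_nat (e := fun i => i) (fun i => by omega) n) (fun l => ?_)
    exact Dvd.dvd.mul_right (pow_dvd_pow X (by nlinarith)) _
  have e3 : ∑' l : ℕ, X ^ (4 * l * (l + 1)) *
      (ip ((X ^ 2) ^ 2) (l : ℤ) * ip (X ^ 2 : ℤ⟦X⟧) ((N : ℤ) - 2 * l)) = RA N := by
    unfold RA RK
    rw [tsum_eq_sum]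
    intro l hl
    rw [Finset.mem_range, not_lt] at hl
    rw [ip_of_neg (X ^ 2) (k := (N : ℤ) - 2 * (l : ℤ)) (by omega)]
    simp
  rw [← e3, ← s2.tsum_mul_left]
  rfl

theorem summable_gg' (b : ℕ × ℕ) : Summable fun c : ℕ × ℕ => gg (b, c) := by
  have h := (summable_inn b.1).mul_left (outc b.1 b.2)
  exact h

theorem summable_outer' (N : ℕ) : Summable fun l : ℕ => outc N l * Dn N := by
  have h := (summable_outc N).mul_right (Dn N)
  exact h

theorem tsum_gg : ∑' x, gg x = ∑' N, fN N := by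
  have h := Summable.tsum_prod' (f := gg) summable_gg summable_gg'
  rw [h, tsum_congr tsum_gg_inner]
  have h2 := Summable.tsum_prod' (f := fun b : ℕ × ℕ => outc b.1 b.2 * Dn b.1) summable_outer
    summable_outer'
  rw [h2]
  apply tsum_congr
  intro N
  have h3 := (summable_outc N).tsum_mul_right (Dn N)
  refine h3.trans ?_
  rw [tsum_outc]
  unfold fN Dn
  ring

/-- the reindexing `(i, j, k, l) ↦ ((k + 2l, l), (i + 2j, j))` -/
def iota (x : ℕ × ℕ × ℕ × ℕ) : (ℕ × ℕ) × (ℕ × ℕ) :=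
  ((x.2.2.1 + 2 * x.2.2.2, x.2.2.2), (x.1 + 2 * x.2.1, x.2.1))

theorem iota_injective : Function.Injective iota := by
  rintro ⟨i, j, k, l⟩ ⟨i', j', k', l'⟩ h
  simp only [iota, Prod.mk.injEq] at h ⊢
  omega

theorem gg_zero_of_not_mem (x : (ℕ × ℕ) × (ℕ × ℕ)) (hx : x ∉ Set.range iota) : gg x = 0 := by
  obtain ⟨⟨N, l⟩, ⟨M, j⟩⟩ := x
  unfold gg outc inn aa
  simp only
  rcases lt_or_ge N (2 * l) with h | h
  · rw [ip_of_neg (X ^ 2) (k := (N : ℤ) - 2 * (l : ℤ)) (by omega)]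
    simp
  · rcases lt_or_ge M (2 * j) with h' | h'
    · rw [bb_zero (by omega)]
      simp
    · exfalso
      apply hx
      refine ⟨(M - 2 * j, j, N - 2 * l, l), ?_⟩
      change ((N - 2 * l + 2 * l, l), (M - 2 * j + 2 * j, j)) = ((N, l), (M, j))
      rw [Nat.sub_add_cancel h, Nat.sub_add_cancel h']

theorem hasSum_gg_iota : HasSum (gg ∘ iota) (∑' N, fN N) := by
  rw [iota_injective.hasSum_iff gg_zero_of_not_mem, ← tsum_gg]
  exact summable_gg.hasSum

theorem two_choose (n : ℕ) : (2 : ℤ) * (n.choose 2 : ℤ) = n * (n - 1) := by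
  induction n with
  | zero => simp
  | succ n ih =>
    rw [Nat.choose_succ_succ' n 1, Nat.choose_one_right]
    push_cast
    linarith

theorem exponent_eq (i j k l : ℕ) :
    2 * i.choose 2 + 4 * j.choose 2 + 2 * k.choose 2 + 16 * l.choose 2 + 2 * i * j + 2 * i * k +
      4 * i * l + 4 * j * k + 8 * j * l + 4 * k * l + 1 * i + 5 * j + 1 * k + 12 * l =
    (k + 2 * l) ^ 2 + 4 * l * (l + 1) + ((i + 2 * j).choose 2 +
      (2 * (k + 2 * l) + 1) * (i + 2 * j) + (2 * j + i.choose 2)) := by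
  have h1 := two_choose i
  have h2 := two_choose j
  have h3 := two_choose k
  have h4 := two_choose l
  have h5 := two_choose (i + 2 * j)
  push_cast at h5
  zify
  linarith

theorem gg_iota (i j k l : ℕ) : gg (iota (i, j, k, l)) =
    (-1) ^ k * X ^ (2 * i.choose 2 + 4 * j.choose 2 + 2 * k.choose 2 + 16 * l.choose 2 +
      2 * i * j + 2 * i * k + 4 * i * l + 4 * j * k + 8 * j * l + 4 * k * l +
      1 * i + 5 * j + 1 * k + 12 * l) *
      (ip X (i : ℤ) * ip (X ^ 2) (j : ℤ) * ip (X ^ 2) (k : ℤ) * ip ((X ^ 2) ^ 2) (l : ℤ)) := by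
  rw [exponent_eq]
  unfold gg outc inn iota aa bb
  simp only
  have e1 : ((k + 2 * l : ℕ) : ℤ) - 2 * (l : ℤ) = (k : ℤ) := by push_cast; ring
  have e2 : ((i + 2 * j : ℕ) : ℤ) - 2 * (j : ℤ) = (i : ℤ) := by push_cast; ring
  have e3 : (-1 : ℤ⟦X⟧) ^ (k + 2 * l) = (-1) ^ k := by
    rw [pow_add, pow_mul]
    simp
  rw [e1, e2, e3, Int.toNat_natCast]
  ring

end Pool.Agent.Lib.MP_c0fb52_nt
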