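import Pool.Agent.Lib.MP_c0fb52_nt.Transfer

set_option autoImplicit false

/-!
The instance of the quintuple product identity needed for the level 2 character.
-/

namespace Pool.Agent.Lib.MP_c0fb52_nt

open Finset PowerSeries PowerSeries.WithPiTopology Filter Topology

/-- `(-1)^j X^e`, for an integer exponent `e ≥ 0` -/
noncomputable def sx (j e : ℤ) : ℤ⟦X⟧ := (((-1 : (ℤ⟦X⟧)ˣ) ^ j : (ℤ⟦X⟧)ˣ) : ℤ⟦X⟧) * X ^ e.toNat

theorem sx_mul {i j e f : ℤ} (he : 0 ≤ e) (hf : 0 ≤ f) : sx i e * sx j f = sx (i + j) (e + f) := by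
  unfold sx
  rw [zpow_add, Units.val_mul, Int.toNat_add he hf, pow_add]
  ring

theorem sx_even (j e : ℤ) (k : ℤ) : sx (j + 2 * k) e = sx j e := by
  unfold sx
  rw [zpow_add, zpow_mul]
  simp

theorem sx_parity {i j : ℤ} (e : ℤ) (h : i % 2 = j % 2) : sx i e = sx j e := by
  obtain ⟨k, hk⟩ : ∃ k, i = j + 2 * k := ⟨(i - j) / 2, by omega⟩
  rw [hk, sx_even]

theorem sx_succ (j e : ℤ) : sx (j + 1) e = - sx j e := by
  unfold sx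
  rw [zpow_add, zpow_one]
  simp

theorem sx_dvd (j e : ℤ) : (X : ℤ⟦X⟧) ^ e.toNat ∣ sx j e := Dvd.intro_left _ rfl

theorem theta_one (c : ℕ) (d j : ℤ) : theta 1 c d j = sx 0 (c * j ^ 2 + d * j) := by
  unfold theta sx
  simp

theorem theta_neg (c : ℕ) (d j : ℤ) : theta (-1) c d j = sx j (c * j ^ 2 + d * j) := rfl

theorem finite_int2 {e : ℤ × ℤ → ℕ} (he : ∀ x, x.1.natAbs ≤ e x + 1 ∧ x.2.natAbs ≤ e x + 1)
    (n : ℕ) : {x | e x ≤ n}.Finite := by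
  apply ((Set.finite_Icc (-(n + 1 : ℤ)) (n + 1)).prod (Set.finite_Icc (-(n + 1 : ℤ)) (n + 1))).subset
  intro x hx
  have := he x
  simp only [Set.mem_ofPred_eq, Set.mem_prod, Set.mem_Icc] at *
  omega

theorem summable_sx {f : ℤ → ℤ⟦X⟧} {e : ℤ → ℕ} (he : ∀ j, j.natAbs ≤ e j + 1)
    (hf : ∀ j, (X : ℤ⟦X⟧) ^ e j ∣ f j) : Summable f :=
  summable_of_dvd e (fun n => finite_int he n) hf

theorem summable_mul2 {f g : ℤ → ℤ⟦X⟧} {e e' : ℤ → ℕ} (he : ∀ j, j.natAbs ≤ e j + 1)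
    (he' : ∀ j, j.natAbs ≤ e' j + 1)
    (hf : ∀ j, (X : ℤ⟦X⟧) ^ e j ∣ f j) (hg : ∀ j, (X : ℤ⟦X⟧) ^ e' j ∣ g j) :
    Summable fun x : ℤ × ℤ => f x.1 * g x.2 := by
  refine summable_of_dvd (fun x => e x.1 + e' x.2)
    (fun n => finite_int2 (e := fun x => e x.1 + e' x.2) (fun x => ?_) n) (fun x => ?_)
  · have h1 := he x.1
    have h2 := he' x.2
    constructor <;> omega
  · rw [pow_add]
    exact mul_dvd_mul (hf x.1) (hg x.2)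

theorem tsum_mul_tsum' {f g : ℤ → ℤ⟦X⟧} {e e' : ℤ → ℕ} (he : ∀ j, j.natAbs ≤ e j + 1)
    (he' : ∀ j, j.natAbs ≤ e' j + 1)
    (hf : ∀ j, (X : ℤ⟦X⟧) ^ e j ∣ f j) (hg : ∀ j, (X : ℤ⟦X⟧) ^ e' j ∣ g j) :
    (∑' j, f j) * (∑' j, g j) = ∑' x : ℤ × ℤ, f x.1 * g x.2 :=
  (summable_sx he hf).tsum_mul_tsum (summable_sx he' hg) (summable_mul2 he he' hf hg)

/-- reindexing `(s, m, r) ↦ (s - 2m + r, m + s)` -/
def reidx : (ℤ × ℤ) × Fin 3 ≃ ℤ × ℤ where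
  toFun x := (x.1.1 - 2 * x.1.2 + (x.2.val : ℤ), x.1.2 + x.1.1)
  invFun y := ((y.2 - ((y.1 - y.2) % 3 - (y.1 - y.2)) / 3, ((y.1 - y.2) % 3 - (y.1 - y.2)) / 3),
    ⟨((y.1 - y.2) % 3).toNat, by omega⟩)
  left_inv := by
    rintro ⟨⟨s, m⟩, r⟩
    have hr := r.isLt
    simp only [Prod.mk.injEq]
    refine ⟨⟨by omega, by omega⟩, ?_⟩
    apply Fin.ext
    simp only
    omega
  right_inv := by
    rintro ⟨a, b⟩
    simp only [Prod.mk.injEq]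
    refine ⟨by omega, by omega⟩

theorem C_neg : ∑' m : ℤ, sx m (48 * m ^ 2 - 16 * m) = ∑' m : ℤ, theta (-1) 48 16 m := by
  rw [← (Equiv.neg ℤ).tsum_eq]
  apply tsum_congr
  intro m
  rw [theta_neg, Equiv.neg_apply]
  have e : (48 * (-m) ^ 2 - 16 * (-m) : ℤ) = (48 : ℕ) * m ^ 2 + 16 * m := by push_cast; ring
  rw [e]
  exact sx_parity _ (by omega)

theorem C_two : ∑' m : ℤ, sx m (48 * m ^ 2 - 48 * m) = 0 := by
  have h : ∑' m : ℤ, sx m (48 * m ^ 2 - 48 * m) = - ∑' m : ℤ, sx m (48 * m ^ 2 - 48 * m) := by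
    nth_rewrite 1 [← (Equiv.subLeft (1 : ℤ)).tsum_eq]
    rw [← tsum_neg]
    apply tsum_congr
    intro m
    rw [Equiv.subLeft_apply, ← sx_succ]
    have e : (48 * (1 - m) ^ 2 - 48 * (1 - m) : ℤ) = 48 * m ^ 2 - 48 * m := by ring
    rw [e]
    exact sx_parity _ (by omega)
  ext n
  have h2 := congrArg (coeff n) h
  rw [map_neg] at h2
  rw [map_zero]
  omega

theorem sq_ge (s : ℤ) : |s| ≤ s ^ 2 := by
  rcases le_or_gt 0 s with h | h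
  · rw [abs_of_nonneg h]
    rcases h.eq_or_lt with h0 | h0
    · rw [← h0]; simp
    · nlinarith
  · rw [abs_of_neg h]
    nlinarith

noncomputable def AA (r s : ℤ) : ℤ⟦X⟧ := sx s (24 * s ^ 2 + (7 + 16 * r) * s + (8 * r ^ 2 - 3 * r))

noncomputable def BB (r m : ℤ) : ℤ⟦X⟧ := sx m (48 * m ^ 2 + (16 - 32 * r) * m)

def eA (r s : ℤ) : ℕ := (24 * s ^ 2 + (7 + 16 * r) * s + (8 * r ^ 2 - 3 * r)).toNat

def eB (r m : ℤ) : ℕ := (48 * m ^ 2 + (16 - 32 * r) * m).toNat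

theorem dA (r s : ℤ) : (X : ℤ⟦X⟧) ^ eA r s ∣ AA r s := sx_dvd _ _

theorem dB (r s : ℤ) : (X : ℤ⟦X⟧) ^ eB r s ∣ BB r s := sx_dvd _ _

theorem bA {r : ℤ} (hr : r = 0 ∨ r = 1 ∨ r = 2) (s : ℤ) : s.natAbs ≤ eA r s + 1 := by
  unfold eA
  have a3 := sq_ge s
  have b3 := neg_abs_le s
  have b3' := le_abs_self s
  have h3 : (s.natAbs : ℤ) = |s| := Int.natCast_natAbs s
  have h4 : |s| ≤ 24 * s ^ 2 + (7 + 16 * r) * s + (8 * r ^ 2 - 3 * r) + 1 := by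
    rcases hr with h | h | h <;> rw [h] <;> nlinarith [sq_nonneg (s + 1), sq_nonneg s]
  omega

theorem bB {r : ℤ} (hr : r = 0 ∨ r = 1 ∨ r = 2) (s : ℤ) : s.natAbs ≤ eB r s + 1 := by
  unfold eB
  have a3 := sq_ge s
  have b3 := neg_abs_le s
  have b3' := le_abs_self s
  have h3 : (s.natAbs : ℤ) = |s| := Int.natCast_natAbs s
  have h4 : |s| ≤ 48 * s ^ 2 + (16 - 32 * r) * s + 1 := by
    rcases hr with h | h | h
    · rw [h]; nlinarith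
    · rw [h]; nlinarith
    · rw [h]
      rcases le_or_gt 2 s with h5 | h5
      · nlinarith
      · rcases le_or_gt s 0 with h6 | h6
        · nlinarith
        · have : s = 1 := by omega
          subst this
          norm_num
  omega

theorem B0_eq : ∑' j, BB 0 j = ∑' m, theta (-1) 48 16 m := by
  apply tsum_congr
  intro m
  have e : (48 * m ^ 2 + (16 - 32 * 0) * m : ℤ) = ((48 : ℕ) : ℤ) * m ^ 2 + 16 * m := by
    push_cast; ring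
  rw [theta_neg, BB, e]

theorem B1_eq : ∑' j, BB 1 j = ∑' m, theta (-1) 48 16 m := by
  rw [← C_neg]
  apply tsum_congr
  intro m
  have e : (48 * m ^ 2 + (16 - 32 * 1) * m : ℤ) = 48 * m ^ 2 - 16 * m := by ring
  rw [BB, e]

theorem B2_eq : ∑' j, BB 2 j = 0 := by
  rw [← C_two]
  apply tsum_congr
  intro m
  have e : (48 * m ^ 2 + (16 - 32 * 2) * m : ℤ) = 48 * m ^ 2 - 48 * m := by ring
  rw [BB, e]

theorem A0_eq : ∑' j, AA 0 j = ∑' s, theta (-1) 24 7 s := by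
  apply tsum_congr
  intro m
  have e : (24 * m ^ 2 + (7 + 16 * 0) * m + (8 * 0 ^ 2 - 3 * 0) : ℤ) =
    ((24 : ℕ) : ℤ) * m ^ 2 + 7 * m := by push_cast; ring
  rw [theta_neg, AA, e]

theorem A1_eq : ∑' j, AA 1 j = X ^ 5 * ∑' s, theta (-1) 24 23 s := by
  rw [← (summable_theta (-1) (by norm_num)).tsum_mul_left]
  apply tsum_congr
  intro m
  unfold theta AA sx
  have a3 := sq_ge m
  have b3 := neg_abs_le m
  have b3' := le_abs_self m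
  have h5 : (0 : ℤ) ≤ ((24 : ℕ) : ℤ) * m ^ 2 + 23 * m := by push_cast; nlinarith
  have e : (24 * m ^ 2 + (7 + 16 * 1) * m + (8 * 1 ^ 2 - 3 * 1) : ℤ).toNat =
      5 + (((24 : ℕ) : ℤ) * m ^ 2 + 23 * m).toNat := by
    push_cast at h5 ⊢
    omega
  rw [e, pow_add]
  ring

/-- `f1 * f2 = C * Θ` -/
theorem product_eq :
    (∑' n, theta 1 8 (-3) n) * (∑' m, theta (-1) 16 10 m) =
      (∑' m, theta (-1) 48 16 m) *
        (∑' s, theta (-1) 24 7 s + X ^ 5 * ∑' s, theta (-1) 24 23 s) := by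
  have hn : ∀ j : ℤ, j.natAbs ≤ j.natAbs + 1 := fun j => by omega
  have t1 : ∀ j : ℤ, (X : ℤ⟦X⟧) ^ j.natAbs ∣ theta 1 8 (-3) j := theta_dvd 1 (by norm_num)
  have t2 : ∀ j : ℤ, (X : ℤ⟦X⟧) ^ j.natAbs ∣ theta (-1) 16 10 j := theta_dvd (-1) (by norm_num)
  rw [tsum_mul_tsum' hn hn t1 t2]
  rw [← reidx.tsum_eq]
  have key : ∀ x : (ℤ × ℤ) × Fin 3,
      theta 1 8 (-3) (reidx x).1 * theta (-1) 16 10 (reidx x).2 =
        sx x.1.1 (24 * x.1.1 ^ 2 + (7 + 16 * (x.2.val : ℤ)) * x.1.1 +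
          (8 * (x.2.val : ℤ) ^ 2 - 3 * (x.2.val : ℤ))) *
        sx x.1.2 (48 * x.1.2 ^ 2 + (16 - 32 * (x.2.val : ℤ)) * x.1.2) := by
    rintro ⟨⟨s, m⟩, r⟩
    change theta 1 8 (-3) (s - 2 * m + (r.val : ℤ)) * theta (-1) 16 10 (m + s) = _
    rw [theta_one, theta_neg]
    simp only
    have a1 := sq_ge (s - 2 * m + (r.val : ℤ))
    have a2 := sq_ge (m + s)
    have a3 := sq_ge s
    have a4 := sq_ge m
    have b1 := neg_abs_le (s - 2 * m + (r.val : ℤ))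
    have b1' := le_abs_self (s - 2 * m + (r.val : ℤ))
    have b2 := neg_abs_le (m + s)
    have b2' := le_abs_self (m + s)
    have b3 := neg_abs_le s
    have b3' := le_abs_self s
    have b4 := neg_abs_le m
    have b4' := le_abs_self m
    have hr : (r.val : ℤ) = 0 ∨ (r.val : ℤ) = 1 ∨ (r.val : ℤ) = 2 := by
      have := r.isLt
      omega
    have n1 : (0 : ℤ) ≤ 24 * s ^ 2 + (7 + 16 * (r.val : ℤ)) * s +
        (8 * (r.val : ℤ) ^ 2 - 3 * (r.val : ℤ)) := by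
      rcases hr with h | h | h <;> rw [h] <;> nlinarith [sq_nonneg (s + 1), sq_nonneg s]
    have n2 : (0 : ℤ) ≤ 48 * m ^ 2 + (16 - 32 * (r.val : ℤ)) * m := by
      rcases hr with h | h | h <;> rw [h] <;> nlinarith
    rw [sx_mul (by push_cast; nlinarith) (by push_cast; nlinarith), sx_mul n1 n2]
    have e : ((8 : ℕ) : ℤ) * (s - 2 * m + (r.val : ℤ)) ^ 2 + -3 * (s - 2 * m + (r.val : ℤ)) +
        (((16 : ℕ) : ℤ) * (m + s) ^ 2 + 10 * (m + s)) =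
        24 * s ^ 2 + (7 + 16 * (r.val : ℤ)) * s + (8 * (r.val : ℤ) ^ 2 - 3 * (r.val : ℤ)) +
        (48 * m ^ 2 + (16 - 32 * (r.val : ℤ)) * m) := by
      push_cast
      ring
    rw [e]
    exact sx_parity _ (by omega)
  have hs0 := reidx.summable_iff.mpr (summable_mul2 hn hn t1 t2)
  have hs := (summable_congr key).mp hs0
  rw [tsum_congr key, hs.tsum_prod' (fun b => Summable.of_finite)]
  have e1 : ∀ b : ℤ × ℤ, ∑' c : Fin 3, sx (b, c).1.1 (24 * (b, c).1.1 ^ 2 +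
      (7 + 16 * ((b, c).2.val : ℤ)) * (b, c).1.1 +
          (8 * ((b, c).2.val : ℤ) ^ 2 - 3 * ((b, c).2.val : ℤ))) *
        sx (b, c).1.2 (48 * (b, c).1.2 ^ 2 + (16 - 32 * ((b, c).2.val : ℤ)) * (b, c).1.2) =
        AA 0 b.1 * BB 0 b.2 + AA 1 b.1 * BB 1 b.2 + AA 2 b.1 * BB 2 b.2 := by
    intro b
    rw [tsum_fintype, Fin.sum_univ_three]
    rfl
  rw [tsum_congr e1]
  have c0 : (0 : ℤ) = 0 ∨ (0 : ℤ) = 1 ∨ (0 : ℤ) = 2 := Or.inl rfl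
  have c1 : (1 : ℤ) = 0 ∨ (1 : ℤ) = 1 ∨ (1 : ℤ) = 2 := Or.inr (Or.inl rfl)
  have c2 : (2 : ℤ) = 0 ∨ (2 : ℤ) = 1 ∨ (2 : ℤ) = 2 := Or.inr (Or.inr rfl)
  have S0 := summable_mul2 (bA c0) (bB c0) (dA 0) (dB 0)
  have S1 := summable_mul2 (bA c1) (bB c1) (dA 1) (dB 1)
  have S2 := summable_mul2 (bA c2) (bB c2) (dA 2) (dB 2)
  rw [(S0.add S1).tsum_add S2, S0.tsum_add S1,
    ← tsum_mul_tsum' (bA c0) (bB c0) (dA 0) (dB 0),
    ← tsum_mul_tsum' (bA c1) (bB c1) (dA 1) (dB 1),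
    ← tsum_mul_tsum' (bA c2) (bB c2) (dA 2) (dB 2)]
  rw [B0_eq, B1_eq, B2_eq, A0_eq, A1_eq]
  ring

theorem fpoch_three (p : ℤ⟦X⟧) (n : ℕ) : fpoch p (3 * n) =
    (∏ m ∈ range n, (1 - p * (p ^ 3) ^ m)) * (∏ m ∈ range n, (1 - p ^ 2 * (p ^ 3) ^ m)) *
      (∏ m ∈ range n, (1 - p ^ 3 * (p ^ 3) ^ m)) := by
  induction n with
  | zero => simp [fpoch]
  | succ n ih =>
    have e : 3 * (n + 1) = 3 * n + 1 + 1 + 1 := by ring
    rw [e, fpoch_succ, fpoch_succ, fpoch_succ, ih, prod_range_succ, prod_range_succ,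
      prod_range_succ]
    ring

theorem pinf_three {p : ℤ⟦X⟧} (hp : (X : ℤ⟦X⟧) ∣ p) :
    pinf p (p ^ 3) * pinf (p ^ 2) (p ^ 3) * pinf (p ^ 3) (p ^ 3) = pinf p p := by
  have hp3 : (X : ℤ⟦X⟧) ∣ p ^ 3 := dvd_pow hp three_ne_zero
  apply eq_of_forall_dvd
  intro n
  have h1 := pinf_split p hp3 n
  have h2 := pinf_split (p ^ 2) hp3 n
  have h3 := pinf_split (p ^ 3) hp3 n
  have h4 := pinf_self_eq hp (3 * n)
  have hd : (X : ℤ⟦X⟧) ^ n ∣ (p ^ 3) ^ n := pow_dvd_pow_of_dvd hp3 n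
  have d1 : (X : ℤ⟦X⟧) ^ n ∣ pinf (p * (p ^ 3) ^ n) (p ^ 3) - 1 :=
    pinf_dvd hp3 (Dvd.dvd.mul_left hd _)
  have d2 : (X : ℤ⟦X⟧) ^ n ∣ pinf (p ^ 2 * (p ^ 3) ^ n) (p ^ 3) - 1 :=
    pinf_dvd hp3 (Dvd.dvd.mul_left hd _)
  have d3 : (X : ℤ⟦X⟧) ^ n ∣ pinf (p ^ 3 * (p ^ 3) ^ n) (p ^ 3) - 1 :=
    pinf_dvd hp3 (Dvd.dvd.mul_left hd _)
  have d4 : (X : ℤ⟦X⟧) ^ n ∣ pinf (p ^ (3 * n + 1)) p - 1 := by
    apply pinf_dvd hp
    exact (pow_dvd_pow X (by omega)).trans (pow_dvd_pow_of_dvd hp (3 * n + 1))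
  rw [h1, h2, h3, h4, fpoch_three]
  obtain ⟨a1, ha1⟩ := d1
  obtain ⟨a2, ha2⟩ := d2
  obtain ⟨a3, ha3⟩ := d3
  obtain ⟨a4, ha4⟩ := d4
  rw [eq_add_of_sub_eq ha1, eq_add_of_sub_eq ha2, eq_add_of_sub_eq ha3, eq_add_of_sub_eq ha4]
  generalize (∏ m ∈ range n, (1 - p * (p ^ 3) ^ m)) = P1
  generalize (∏ m ∈ range n, (1 - p ^ 2 * (p ^ 3) ^ m)) = P2
  generalize (∏ m ∈ range n, (1 - p ^ 3 * (p ^ 3) ^ m)) = P3
  refine ⟨P1 * P2 * P3 * (a1 * (X ^ n * a2 + 1) * (X ^ n * a3 + 1) +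
    a2 * (X ^ n * a3 + 1) + a3 - a4), ?_⟩
  ring

theorem f1_eq : ∑' n, theta 1 8 (-3) n = pinf (X ^ 16) (X ^ 16) *
    (pinf (-X ^ 5) (X ^ 16) * pinf (-X ^ 11) (X ^ 16)) := by
  rw [jtp 1 (by norm_num)]
  simp

theorem f2_eq : ∑' n, theta (-1) 16 10 n = pinf (X ^ 32) (X ^ 32) *
    (pinf (X ^ 26) (X ^ 32) * pinf (X ^ 6) (X ^ 32)) := by
  rw [jtp (-1) (by norm_num)]
  simp

theorem C_eq : ∑' n, theta (-1) 48 16 n = pinf (X ^ 32) (X ^ 32) := by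
  rw [jtp (-1) (by norm_num)]
  have h := pinf_three (p := X ^ 32) (dvd_pow_self X (by norm_num))
  rw [← h]
  simp only [← pow_mul]
  have e1 : (((48 : ℕ) : ℤ) + 16).toNat = 64 := rfl
  have e2 : (((48 : ℕ) : ℤ) - 16).toNat = 32 := rfl
  rw [e1, e2]
  norm_num
  ring

/-- The quintuple product identity, in the form needed. -/
theorem quintuple :
    (∑' s, theta (-1) 24 7 s + X ^ 5 * ∑' s, theta (-1) 24 23 s) *
      (pinf (X ^ 5) (X ^ 16) * pinf (X ^ 11) (X ^ 16)) =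
    pinf (X ^ 16) (X ^ 16) * (pinf (X ^ 10) (X ^ 16) * pinf (X ^ 6) (X ^ 16)) := by
  have h := product_eq
  rw [f1_eq, f2_eq, C_eq] at h
  have h16 : (X : ℤ⟦X⟧) ∣ X ^ 16 := dvd_pow_self X (by norm_num)
  have h32 : (X : ℤ⟦X⟧) ∣ X ^ 32 := dvd_pow_self X (by norm_num)
  have hne : pinf (X ^ 32 : ℤ⟦X⟧) (X ^ 32) ≠ 0 := pinf_ne_zero h32 h32
  have m5 := pinf_mul_neg (X ^ 5) h16
  have m11 := pinf_mul_neg (X ^ 11) h16
  have e10 := pinf_even_odd (X ^ 10) h16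
  have e6 := pinf_even_odd (X ^ 6) h16
  rw [← pow_mul, ← pow_mul] at m5 m11
  rw [← pow_mul, ← pow_add] at e10 e6
  norm_num at m5 m11 e10 e6
  apply mul_left_cancel₀ hne
  rw [← mul_assoc, ← h, ← e10, ← e6, ← m5, ← m11]
  ring

end Pool.Agent.Lib.MP_c0fb52_nt
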