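import Pool.Agent.Lib.MP_c0fb52_nt.ZSum

set_option autoImplicit false

/-!
Transfer of finite identities from the fraction field of `ℤ⟦X⟧`.
-/

namespace Pool.Agent.Lib.MP_c0fb52_nt

open Finset PowerSeries PowerSeries.WithPiTopology Filter Topology

abbrev KK : Type := FractionRing ℤ⟦X⟧

noncomputable abbrev phi : ℤ⟦X⟧ →+* KK := algebraMap ℤ⟦X⟧ KK

theorem phi_inj : Function.Injective phi := IsFractionRing.injective ℤ⟦X⟧ KK

theorem phi_fpoch (p : ℤ⟦X⟧) (n : ℕ) : phi (fpoch p n) = fpoch (phi p) n := by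
  unfold fpoch
  rw [map_prod]
  simp

theorem phi_ip {p : ℤ⟦X⟧} (hp : (X : ℤ⟦X⟧) ∣ p) (k : ℤ) : phi (ip p k) = ip (phi p) k := by
  rcases lt_or_ge k 0 with h | h
  · rw [ip_of_neg p h, ip_of_neg (phi p) h, map_zero]
  · obtain ⟨n, rfl⟩ := Int.eq_ofNat_of_zero_le h
    have h1 := congrArg phi (fpoch_mul_ip hp n)
    rw [map_mul, phi_fpoch, map_one] at h1
    rw [ip_eq_inv]
    exact eq_inv_of_mul_eq_one_right h1

theorem phi_X_ne_zero : phi (X : ℤ⟦X⟧) ≠ 0 := by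
  intro h
  exact X_ne_zero (phi_inj (by rw [h, map_zero]))

theorem phi_S (L : ℕ) (f : ℤ → ℤ⟦X⟧) : phi (S L f) = S L (fun j => phi (f j)) := by
  unfold S
  rw [map_sum]

/-- `X ^ e` for a nonnegative integer exponent -/
theorem phi_X_toNat {e : ℤ} (he : 0 ≤ e) : phi ((X : ℤ⟦X⟧) ^ e.toNat) = (phi X) ^ e := by
  obtain ⟨n, rfl⟩ := Int.eq_ofNat_of_zero_le he
  rw [map_pow, zpow_natCast]
  rfl

theorem X_pow_ne_one {n : ℕ} (hn : 0 < n) : (X : ℤ⟦X⟧) ^ n ≠ 1 := by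
  intro h
  have := congrArg constantCoeff h
  rw [map_pow, constantCoeff_X, zero_pow hn.ne', map_one] at this
  exact zero_ne_one this

theorem phi_X_pow_ne_one {c : ℕ} (hc : 0 < c) (n : ℕ) (hn : 0 < n) :
    ((phi (X : ℤ⟦X⟧)) ^ c) ^ n ≠ 1 := by
  intro h
  rw [← pow_mul, ← map_pow] at h
  exact X_pow_ne_one (Nat.mul_pos hc hn) (phi_inj (by rw [h, map_one]))

theorem tsum_eq_S {L : ℕ} {f : ℤ → ℤ⟦X⟧} (hf : ∀ j : ℤ, (L : ℤ) < |j| → f j = 0) :
    ∑' j, f j = S L f := by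
  have hinj : Function.Injective (fun i : ℕ => (i : ℤ) - L) := by
    intro a b h
    simpa using h
  rw [tsum_eq_sum (s := (range (2 * L + 1)).map ⟨fun i : ℕ => (i : ℤ) - L, hinj⟩), sum_map]
  · rfl
  · intro b hb
    apply hf
    by_contra hcon
    apply hb
    rw [not_lt, abs_le] at hcon
    rw [Finset.mem_map]
    refine ⟨(b + L).toNat, ?_, ?_⟩
    · rw [Finset.mem_range]
      omega
    · simp only [Function.Embedding.coeFn_mk]
      omega

section jtp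

variable (u : (ℤ⟦X⟧)ˣ) (c : ℕ) (d : ℤ)

/-- `u ^ j X ^ (c j² + d j)` -/
noncomputable def theta (j : ℤ) : ℤ⟦X⟧ := ((u ^ j : (ℤ⟦X⟧)ˣ) : ℤ⟦X⟧) * X ^ (c * j ^ 2 + d * j).toNat

variable {c d}

theorem theta_exp (hd : |d| < c) (j : ℤ) : (j.natAbs : ℤ) ≤ c * j ^ 2 + d * j := by
  rcases abs_lt.mp hd with ⟨h1, h2⟩
  rcases le_or_gt 0 j with h | h
  · rw [Int.natAbs_of_nonneg h]
    rcases h.eq_or_lt with h0 | h0
    · rw [← h0]; simp
    · have h3 : (c : ℤ) * 1 ≤ c * j := mul_le_mul_of_nonneg_left (by omega) (by omega)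
      have h4 : 0 ≤ j * (c * j + d - 1) := mul_nonneg h (by linarith)
      linarith
  · have : (j.natAbs : ℤ) = -j := by omega
    rw [this]
    have h3 : (c : ℤ) * 1 ≤ c * (-j) := mul_le_mul_of_nonneg_left (by omega) (by omega)
    have h4 : 0 ≤ (-j) * (c * (-j) - d - 1) := mul_nonneg (by omega) (by linarith)
    linarith

theorem theta_dvd (hd : |d| < c) (j : ℤ) : (X : ℤ⟦X⟧) ^ j.natAbs ∣ theta u c d j := by
  unfold theta
  apply Dvd.dvd.mul_left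
  apply pow_dvd_pow
  have := theta_exp hd j
  omega

theorem summable_theta (hd : |d| < c) : Summable (theta u c d) :=
  summable_of_dvd (fun j => j.natAbs)
    (fun n => finite_int (e := fun j => j.natAbs) (fun i => by omega) n) (theta_dvd u hd)

/-- coefficient in the finite triple product -/
noncomputable def cc (p : ℤ⟦X⟧) (n : ℕ) (j : ℤ) : ℤ⟦X⟧ :=
  fpoch p (2 * n) * (ip p (n + j) * ip p (n - j))

theorem finite_jtp (hd : |d| < c) (n : ℕ) :
    ∏ k ∈ range n, ((1 - -((u : ℤ⟦X⟧) * X ^ (c + d).toNat) * (X ^ (2 * c)) ^ k) *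
      (1 - -(((u⁻¹ : (ℤ⟦X⟧)ˣ) : ℤ⟦X⟧) * X ^ (c - d).toNat) * (X ^ (2 * c)) ^ k)) =
    S n (fun j => theta u c d j * cc (X ^ (2 * c)) n j) := by
  rcases abs_lt.mp hd with ⟨h1, h2⟩
  have hc : 0 < c := by omega
  apply phi_inj
  have h0 : (phi X) ^ c ≠ 0 := pow_ne_zero _ phi_X_ne_zero
  have hu : phi (u : ℤ⟦X⟧) ≠ 0 := by
    intro h
    exact u.ne_zero (phi_inj (by rw [h, map_zero]))
  have hui : phi ((u⁻¹ : (ℤ⟦X⟧)ˣ) : ℤ⟦X⟧) = (phi u)⁻¹ := by
    apply eq_inv_of_mul_eq_one_right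
    rw [← map_mul, Units.mul_inv, map_one]
  have hp : ∀ n : ℕ, 0 < n → (((phi X) ^ c) ^ 2) ^ n ≠ 1 := by
    intro n hn
    have h3 := phi_X_pow_ne_one (c := c * 2) (by omega) n hn
    rwa [pow_mul] at h3
  have hqd : phi (X : ℤ⟦X⟧) ^ d ≠ 0 := zpow_ne_zero _ phi_X_ne_zero
  have key := cauchy (h := (phi X) ^ c) (t := phi u * (phi X) ^ d) h0 (mul_ne_zero hu hqd) hp n n
    le_rfl
  rw [phi_S, map_prod]
  have e2c : phi ((X : ℤ⟦X⟧) ^ (2 * c)) = ((phi X) ^ c) ^ 2 := by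
    rw [map_pow, ← pow_mul, mul_comm]
  have lhs : ∀ k ∈ range n, phi ((1 - -((u : ℤ⟦X⟧) * X ^ (c + d).toNat) * (X ^ (2 * c)) ^ k) *
      (1 - -(((u⁻¹ : (ℤ⟦X⟧)ˣ) : ℤ⟦X⟧) * X ^ (c - d).toNat) * (X ^ (2 * c)) ^ k)) =
      (1 + ((phi X) ^ c) ^ (2 * k + 1) * (phi u * (phi X) ^ d)) *
      (1 + ((phi X) ^ c) ^ (2 * k + 1) * (phi u * (phi X) ^ d)⁻¹) := by
    intro k _
    rw [map_mul, map_sub, map_sub, map_mul, map_mul, map_neg, map_neg, map_mul, map_mul,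
      phi_X_toNat (by omega), phi_X_toNat (by omega), hui, map_one, map_pow, e2c,
      zpow_add₀ phi_X_ne_zero, zpow_sub₀ phi_X_ne_zero, zpow_natCast, mul_inv]
    congr 1
    · ring
    · field_simp
      ring
  rw [prod_congr rfl lhs, key]
  apply S_congr
  intro j
  unfold theta cc
  rw [map_mul, map_mul, map_mul, map_mul, phi_fpoch, phi_ip (dvd_pow_self X (by omega)),
    phi_ip (dvd_pow_self X (by omega)), e2c, phi_X_toNat]
  · congr 1
    have e1 : phi ((u ^ j : (ℤ⟦X⟧)ˣ) : ℤ⟦X⟧) = (phi u) ^ j := by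
      have e3 : phi ((u ^ j : (ℤ⟦X⟧)ˣ) : ℤ⟦X⟧) = ((Units.map (phi : ℤ⟦X⟧ →* KK) (u ^ j) : KKˣ) : KK) :=
        rfl
      rw [e3, map_zpow, Units.val_zpow_eq_zpow_val]
      rfl
    rw [e1, mul_zpow, zpow_add₀ phi_X_ne_zero, zpow_mul, zpow_mul, zpow_natCast]
    ring
  · have := theta_exp hd j
    omega

theorem dvd_sub_one_of_mul {m : ℕ} {y w a b : ℤ⟦X⟧} (hw : (X : ℤ⟦X⟧) ^ m ∣ w - 1)
    (ha : (X : ℤ⟦X⟧) ^ m ∣ a - 1) (hb : (X : ℤ⟦X⟧) ^ m ∣ b - 1) (h : y * w = a * b) :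
    (X : ℤ⟦X⟧) ^ m ∣ y - 1 := by
  have e : y - 1 = a * (b - 1) + (a - 1) - y * (w - 1) := by
    linear_combination h
  rw [e]
  exact dvd_sub (dvd_add (Dvd.dvd.mul_left hb _) ha) (Dvd.dvd.mul_left hw _)

theorem cc_dvd {p : ℤ⟦X⟧} (hp : (X : ℤ⟦X⟧) ∣ p) (n : ℕ) (j : ℤ) :
    (X : ℤ⟦X⟧) ^ (n - j.natAbs) ∣ pinf p p * cc p n j - 1 := by
  rcases le_or_gt j.natAbs n with h | h
  · obtain ⟨a, ha⟩ : ∃ a : ℕ, (n : ℤ) + j = a := ⟨(n + j).toNat, by omega⟩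
    obtain ⟨b, hb⟩ : ∃ b : ℕ, (n : ℤ) - j = b := ⟨(n - j).toNat, by omega⟩
    have ha' : n - j.natAbs ≤ a := by omega
    have hb' : n - j.natAbs ≤ b := by omega
    unfold cc
    rw [ha, hb]
    apply dvd_sub_one_of_mul (w := pinf (p ^ (2 * n + 1)) p) (a := pinf (p ^ (a + 1)) p)
      (b := pinf (p ^ (b + 1)) p)
    · apply pinf_dvd hp
      exact (pow_dvd_pow X (by omega)).trans (pow_dvd_pow_of_dvd hp (2 * n + 1))
    · apply pinf_dvd hp
      exact (pow_dvd_pow X (by omega)).trans (pow_dvd_pow_of_dvd hp (a + 1))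
    · apply pinf_dvd hp
      exact (pow_dvd_pow X (by omega)).trans (pow_dvd_pow_of_dvd hp (b + 1))
    · have h1 := pinf_self_eq hp a
      have h2 := pinf_self_eq hp b
      have h3 := pinf_self_eq hp (2 * n)
      have i1 := fpoch_mul_ip hp a
      have i2 := fpoch_mul_ip hp b
      calc pinf p p * (fpoch p (2 * n) * (ip p a * ip p b)) * pinf (p ^ (2 * n + 1)) p
          = pinf p p * (fpoch p (2 * n) * pinf (p ^ (2 * n + 1)) p) * (ip p a * ip p b) := by ring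
        _ = pinf p p * pinf p p * (ip p a * ip p b) := by rw [← h3]
        _ = (fpoch p a * pinf (p ^ (a + 1)) p) * (fpoch p b * pinf (p ^ (b + 1)) p) *
            (ip p a * ip p b) := by rw [← h1, ← h2]
        _ = (fpoch p a * ip p a) * (fpoch p b * ip p b) *
            (pinf (p ^ (a + 1)) p * pinf (p ^ (b + 1)) p) := by ring
        _ = _ := by rw [i1, i2]; ring
  · rw [Nat.sub_eq_zero_of_le h.le, pow_zero]
    exact one_dvd _

/-- The Jacobi triple product identity. -/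
theorem jtp (hd : |d| < c) :
    ∑' j, theta u c d j = pinf (X ^ (2 * c)) (X ^ (2 * c)) *
      (pinf (-((u : ℤ⟦X⟧) * X ^ (c + d).toNat)) (X ^ (2 * c)) *
        pinf (-(((u⁻¹ : (ℤ⟦X⟧)ˣ) : ℤ⟦X⟧) * X ^ (c - d).toNat)) (X ^ (2 * c))) := by
  rcases abs_lt.mp hd with ⟨h1, h2⟩
  have hp : (X : ℤ⟦X⟧) ∣ X ^ (2 * c) := dvd_pow_self X (by omega)
  set p : ℤ⟦X⟧ := X ^ (2 * c) with hpdef
  set z : ℤ⟦X⟧ := -((u : ℤ⟦X⟧) * X ^ (c + d).toNat) with hz
  set w : ℤ⟦X⟧ := -(((u⁻¹ : (ℤ⟦X⟧)ˣ) : ℤ⟦X⟧) * X ^ (c - d).toNat) with hw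
  apply eq_of_forall_dvd
  intro n
  have hz' := pinf_split z hp n
  have hw' := pinf_split w hp n
  have hfin := finite_jtp u hd n
  rw [← hpdef, ← hz, ← hw, prod_mul_distrib] at hfin
  have hS : S n (fun j => theta u c d j * cc p n j) = ∑' j, theta u c d j * cc p n j := by
    rw [tsum_eq_S (L := n)]
    intro j hj
    unfold cc
    rcases le_or_gt 0 j with h | h
    · rw [abs_of_nonneg h] at hj
      rw [ip_of_neg p (k := (n : ℤ) - j) (by omega)]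
      simp
    · rw [abs_of_neg h] at hj
      rw [ip_of_neg p (k := (n : ℤ) + j) (by omega)]
      simp
  have s1 : Summable fun j => theta u c d j * cc p n j :=
    summable_of_dvd (fun j => j.natAbs)
      (fun n => finite_int (e := fun j => j.natAbs) (fun i => by omega) n)
      (fun j => Dvd.dvd.mul_right (theta_dvd u hd j) _)
  have hmain : (X : ℤ⟦X⟧) ^ n ∣ pinf p p * S n (fun j => theta u c d j * cc p n j) -
      ∑' j, theta u c d j := by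
    rw [hS, ← s1.tsum_mul_left, ← (s1.mul_left _).tsum_sub (summable_theta u hd)]
    apply dvd_tsum
    intro j
    have e : pinf p p * (theta u c d j * cc p n j) - theta u c d j =
        theta u c d j * (pinf p p * cc p n j - 1) := by ring
    rw [e]
    have h3 : (X : ℤ⟦X⟧) ^ n ∣ X ^ j.natAbs * X ^ (n - j.natAbs) := by
      rw [← pow_add]
      exact pow_dvd_pow X (by omega)
    exact h3.trans (mul_dvd_mul (theta_dvd u hd j) (cc_dvd hp n j))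
  have hzn : (X : ℤ⟦X⟧) ^ n ∣ pinf (z * p ^ n) p - 1 :=
    pinf_dvd hp (Dvd.dvd.mul_left (pow_dvd_pow_of_dvd hp n) _)
  have hwn : (X : ℤ⟦X⟧) ^ n ∣ pinf (w * p ^ n) p - 1 :=
    pinf_dvd hp (Dvd.dvd.mul_left (pow_dvd_pow_of_dvd hp n) _)
  have e : ∑' j, theta u c d j - pinf p p * (pinf z p * pinf w p) =
      -(pinf p p * S n (fun j => theta u c d j * cc p n j) - ∑' j, theta u c d j) -
      pinf p p * (∏ m ∈ range n, (1 - z * p ^ m)) * (∏ m ∈ range n, (1 - w * p ^ m)) *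
        (pinf (z * p ^ n) p * (pinf (w * p ^ n) p - 1) + (pinf (z * p ^ n) p - 1)) := by
    rw [hz', hw', ← hfin]
    ring
  rw [e]
  refine dvd_sub ((dvd_neg).mpr hmain) (Dvd.dvd.mul_left ?_ _)
  exact dvd_add (Dvd.dvd.mul_left hwn _) hzn

end jtp

end Pool.Agent.Lib.MP_c0fb52_nt
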