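import Pool.Agent.Lib.MP_c0fb52_nt.Formal

set_option autoImplicit false

/-!
The sums `Z_s = ∑ (-1)^n q^(n²) (q;q²)_n / ((q²;q²)_(n-s) (q²;q²)_(n+s))`.
-/

namespace Pool.Agent.Lib.MP_c0fb52_nt

open Finset PowerSeries PowerSeries.WithPiTopology Filter Topology

theorem X_dvd_X_sq : (X : ℤ⟦X⟧) ∣ X ^ 2 := dvd_pow_self X two_ne_zero

/-- `(q;q²)_n` -/
noncomputable def odd (n : ℕ) : ℤ⟦X⟧ := ∏ m ∈ range n, (1 - X ^ (2 * m + 1))

theorem odd_succ (n : ℕ) : odd (n + 1) = odd n * (1 - X ^ (2 * n + 1)) := by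
  simp [odd, prod_range_succ]

theorem odd_zero : odd 0 = 1 := by simp [odd]

noncomputable def zt (n : ℕ) (s : ℤ) : ℤ⟦X⟧ :=
  (-1) ^ n * X ^ (n ^ 2) * odd n * (ip (X ^ 2) ((n : ℤ) - s) * ip (X ^ 2) ((n : ℤ) + s))

noncomputable def zt' (n : ℕ) (r : ℤ) : ℤ⟦X⟧ :=
  (-1) ^ n * X ^ (n ^ 2) * odd (n + 1) *
    (ip (X ^ 2) ((n : ℤ) - r) * ip (X ^ 2) ((n : ℤ) + 1 + r))

theorem zt_dvd (n : ℕ) (s : ℤ) : (X : ℤ⟦X⟧) ^ (n ^ 2) ∣ zt n s :=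
  ⟨(-1) ^ n * odd n * (ip (X ^ 2) ((n : ℤ) - s) * ip (X ^ 2) ((n : ℤ) + s)), by unfold zt; ring⟩

theorem zt'_dvd (n : ℕ) (s : ℤ) : (X : ℤ⟦X⟧) ^ (n ^ 2) ∣ zt' n s :=
  ⟨(-1) ^ n * odd (n + 1) * (ip (X ^ 2) ((n : ℤ) - s) * ip (X ^ 2) ((n : ℤ) + 1 + s)),
    by unfold zt'; ring⟩

theorem finite_sq (n : ℕ) : {i : ℕ | i ^ 2 ≤ n}.Finite :=
  finite_nat (e := fun i => i ^ 2) (fun i => by nlinarith [Nat.le_self_pow two_ne_zero i]) n

theorem summable_zt (s : ℤ) : Summable fun n => zt n s :=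
  summable_of_dvd (fun n => n ^ 2) finite_sq fun n => zt_dvd n s

theorem summable_zt' (s : ℤ) : Summable fun n => zt' n s :=
  summable_of_dvd (fun n => n ^ 2) finite_sq fun n => zt'_dvd n s

theorem zt_neg (n : ℕ) (s : ℤ) : zt n (-s) = zt n s := by
  unfold zt
  rw [sub_neg_eq_add, ← sub_eq_add_neg]
  ring

theorem zt'_neg (n : ℕ) (s : ℤ) : zt' n (-s - 1) = zt' n s := by
  unfold zt'
  have e1 : (n : ℤ) - (-s - 1) = (n : ℤ) + 1 + s := by ring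
  have e2 : (n : ℤ) + 1 + (-s - 1) = (n : ℤ) - s := by ring
  rw [e1, e2]
  ring

theorem tele {G : ℕ → ℤ⟦X⟧} (hG : ∀ n, (X : ℤ⟦X⟧) ^ (n ^ 2) ∣ G n) (h0 : G 0 = 0) :
    ∑' n, (G (n + 1) - G n) = 0 := by
  have s1 : Summable G := summable_of_dvd (fun n => n ^ 2) finite_sq hG
  have s2 : Summable fun n => G (n + 1) := (summable_nat_add_iff 1).mpr s1
  rw [s2.tsum_sub s1, s1.tsum_eq_zero_add, h0, zero_add, sub_self]

/-- common auxiliary quantity -/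
noncomputable def gt (n s : ℕ) : ℤ⟦X⟧ :=
  -((-1) ^ n * X ^ (n ^ 2) * odd n *
    (ip (X ^ 2) ((n : ℤ) - s - 1) * ip (X ^ 2) ((n : ℤ) + s)))

theorem gt_dvd (n s : ℕ) : (X : ℤ⟦X⟧) ^ (n ^ 2) ∣ gt n s :=
  ⟨-((-1) ^ n * odd n * (ip (X ^ 2) ((n : ℤ) - s - 1) * ip (X ^ 2) ((n : ℤ) + s))),
    by unfold gt; ring⟩

theorem gt_zero (s : ℕ) : gt 0 s = 0 := by
  unfold gt
  rw [ip_of_neg (X ^ 2) (k := ((0 : ℕ) : ℤ) - s - 1) (by push_cast; omega)]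
  simp

theorem zt_key (n s : ℕ) :
    zt n ((s : ℤ) + 1) + X ^ (2 * s + 1) * zt n s =
      (1 + X ^ (2 * s + 1)) * (gt (n + 1) s - gt n s) := by
  rcases lt_or_ge n s with h | h
  · unfold zt gt
    rw [ip_of_neg (X ^ 2) (k := (n : ℤ) - ((s : ℤ) + 1)) (by omega),
      ip_of_neg (X ^ 2) (k := (n : ℤ) - (s : ℤ)) (by omega),
      ip_of_neg (X ^ 2) (k := ((n + 1 : ℕ) : ℤ) - s - 1) (by push_cast; omega),
      ip_of_neg (X ^ 2) (k := (n : ℤ) - s - 1) (by omega)]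
    ring
  · obtain ⟨t, rfl⟩ : ∃ t, n = s + t := ⟨n - s, by omega⟩
    unfold zt gt
    have a1 : ((s + t : ℕ) : ℤ) - ((s : ℤ) + 1) = (t : ℤ) - 1 := by push_cast; ring
    have a2 : ((s + t : ℕ) : ℤ) + ((s : ℤ) + 1) = ((2 * s + t : ℕ) : ℤ) + 1 := by push_cast; ring
    have a3 : ((s + t : ℕ) : ℤ) - (s : ℤ) = (t : ℤ) := by push_cast; ring
    have a4 : ((s + t : ℕ) : ℤ) + (s : ℤ) = ((2 * s + t : ℕ) : ℤ) := by push_cast; ring
    have a5 : ((s + t + 1 : ℕ) : ℤ) - (s : ℤ) - 1 = (t : ℤ) := by push_cast; ring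
    have a6 : ((s + t + 1 : ℕ) : ℤ) + (s : ℤ) = ((2 * s + t : ℕ) : ℤ) + 1 := by push_cast; ring
    have h1 := ip_pred' X_dvd_X_sq t
    have h2 := ip_succ X_dvd_X_sq (2 * s + t)
    rw [a1, a2, a3, a4, a5, a6, h1, h2, odd_succ]
    ring

theorem zt'_key (n s : ℕ) :
    zt n s + zt n ((s : ℤ) + 1) - zt' n s = gt (n + 1) s - gt n s := by
  rcases lt_or_ge n s with h | h
  · unfold zt zt' gt
    rw [ip_of_neg (X ^ 2) (k := (n : ℤ) - ((s : ℤ) + 1)) (by omega),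
      ip_of_neg (X ^ 2) (k := (n : ℤ) - (s : ℤ)) (by omega),
      ip_of_neg (X ^ 2) (k := ((n + 1 : ℕ) : ℤ) - s - 1) (by push_cast; omega),
      ip_of_neg (X ^ 2) (k := (n : ℤ) - s - 1) (by omega)]
    ring
  · obtain ⟨t, rfl⟩ : ∃ t, n = s + t := ⟨n - s, by omega⟩
    unfold zt zt' gt
    have a1 : ((s + t : ℕ) : ℤ) - ((s : ℤ) + 1) = (t : ℤ) - 1 := by push_cast; ring
    have a2 : ((s + t : ℕ) : ℤ) + ((s : ℤ) + 1) = ((2 * s + t : ℕ) : ℤ) + 1 := by push_cast; ring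
    have a3 : ((s + t : ℕ) : ℤ) - (s : ℤ) = (t : ℤ) := by push_cast; ring
    have a4 : ((s + t : ℕ) : ℤ) + (s : ℤ) = ((2 * s + t : ℕ) : ℤ) := by push_cast; ring
    have a5 : ((s + t + 1 : ℕ) : ℤ) - (s : ℤ) - 1 = (t : ℤ) := by push_cast; ring
    have a6 : ((s + t + 1 : ℕ) : ℤ) + (s : ℤ) = ((2 * s + t : ℕ) : ℤ) + 1 := by push_cast; ring
    have a7 : ((s + t : ℕ) : ℤ) + 1 + (s : ℤ) = ((2 * s + t : ℕ) : ℤ) + 1 := by push_cast; ring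
    have h1 := ip_pred' X_dvd_X_sq t
    have h2 := ip_succ X_dvd_X_sq (2 * s + t)
    rw [a1, a2, a3, a4, a5, a6, a7, h1, h2, odd_succ]
    ring

/-- `Z_s` -/
noncomputable def Z (s : ℤ) : ℤ⟦X⟧ := ∑' n, zt n s

theorem Z_neg (s : ℤ) : Z (-s) = Z s := tsum_congr fun n => zt_neg n s

theorem Z_rec (s : ℕ) : Z ((s : ℤ) + 1) = - (X ^ (2 * s + 1) * Z s) := by
  have h : Z ((s : ℤ) + 1) + X ^ (2 * s + 1) * Z s = 0 := by
    unfold Z
    rw [← (summable_zt _).tsum_mul_left, ← (summable_zt _).tsum_add ((summable_zt _).mul_left _)]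
    rw [tsum_congr fun n => zt_key n s]
    have s1 : Summable fun n => gt (n + 1) s - gt n s := by
      have s1 : Summable (fun n => gt n s) :=
        summable_of_dvd (fun n => n ^ 2) finite_sq fun n => gt_dvd n s
      exact ((summable_nat_add_iff 1).mpr s1).sub s1
    rw [s1.tsum_mul_left, tele (G := fun n => gt n s) (fun n => gt_dvd n s) (gt_zero s), mul_zero]
  linear_combination h

theorem Z'_nat (s : ℕ) : ∑' n, zt' n s = Z s + Z ((s : ℤ) + 1) := by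
  have h : Z s + Z ((s : ℤ) + 1) - ∑' n, zt' n s = 0 := by
    unfold Z
    rw [← (summable_zt _).tsum_add (summable_zt _),
      ← ((summable_zt _).add (summable_zt _)).tsum_sub (summable_zt' _),
      tsum_congr fun n => zt'_key n s]
    exact tele (G := fun n => gt n s) (fun n => gt_dvd n s) (gt_zero s)
  linear_combination -h

theorem Z'_eq (r : ℤ) : ∑' n, zt' n r = Z r + Z (r + 1) := by
  rcases le_or_gt 0 r with h | h
  · obtain ⟨s, rfl⟩ := Int.eq_ofNat_of_zero_le h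
    exact Z'_nat s
  · obtain ⟨s, hs⟩ : ∃ s : ℕ, r = -(s : ℤ) - 1 := ⟨(-r - 1).toNat, by omega⟩
    subst hs
    rw [tsum_congr fun n => zt'_neg n s, Z'_nat]
    have e1 : (-(s : ℤ) - 1) = -((s : ℤ) + 1) := by ring
    have e2 : (-(s : ℤ) - 1 + 1) = -(s : ℤ) := by ring
    rw [e2, e1, Z_neg, Z_neg]
    ring

theorem Z_nat (s : ℕ) : Z s = (-1) ^ s * X ^ (s ^ 2) * Z 0 := by
  induction s with
  | zero => simp
  | succ s ih =>
    rw [Nat.cast_succ, Z_rec, ih]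
    ring

theorem Z_int (s : ℤ) : Z s = (-1) ^ s.natAbs * X ^ (s.natAbs ^ 2) * Z 0 := by
  rcases Int.natAbs_eq s with h | h
  · nth_rewrite 1 [h]
    exact Z_nat _
  · nth_rewrite 1 [h]
    rw [Z_neg]
    exact Z_nat _

theorem pinf_X_eq (n : ℕ) : pinf X (X ^ 2) = odd n * pinf (X ^ (2 * n + 1)) (X ^ 2) := by
  rw [pinf_split X X_dvd_X_sq n]
  congr 1
  · unfold odd
    apply prod_congr rfl
    intro m _
    ring
  · congr 1
    ring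

theorem pinf_self_eq {p : ℤ⟦X⟧} (hp : (X : ℤ⟦X⟧) ∣ p) (n : ℕ) :
    pinf p p = fpoch p n * pinf (p ^ (n + 1)) p := by
  rw [pinf_split p hp n]
  congr 1
  · unfold fpoch
    apply prod_congr rfl
    intro m _
    ring
  · congr 1
    ring

theorem Z_zero : pinf (X ^ 2) (X ^ 2) * Z 0 = pinf X (X ^ 2) := by
  apply eq_of_forall_dvd
  intro s
  have h1 : (X : ℤ⟦X⟧) ^ (2 * s + 1) ∣ Z 0 - odd s * ip (X ^ 2) ((2 * s : ℕ) : ℤ) := by
    have h2 : (X : ℤ⟦X⟧) ^ ((s + 1) ^ 2) ∣ Z s - zt s s := by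
      unfold Z
      rw [(summable_zt s).tsum_eq_add_tsum_ite s, add_sub_cancel_left]
      apply dvd_tsum
      intro n
      split_ifs with hn
      · exact dvd_zero _
      · rcases lt_or_gt_of_ne hn with h | h
        · unfold zt
          rw [ip_of_neg (X ^ 2) (k := (n : ℤ) - (s : ℤ)) (by omega)]
          simp
        · exact (pow_dvd_pow X (by nlinarith)).trans (zt_dvd n s)
    have e1 : zt s s = (-1) ^ s * X ^ (s ^ 2) * (odd s * ip (X ^ 2) ((2 * s : ℕ) : ℤ)) := by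
      unfold zt
      have a1 : (s : ℤ) - s = ((0 : ℕ) : ℤ) := by simp
      have a2 : (s : ℤ) + s = ((2 * s : ℕ) : ℤ) := by push_cast; ring
      have a3 : ip (X ^ 2 : ℤ⟦X⟧) ((0 : ℕ) : ℤ) = 1 := by
        have := fpoch_mul_ip X_dvd_X_sq 0
        rwa [fpoch_zero, one_mul] at this
      rw [a1, a2, a3]
      ring
    rw [Z_nat, e1] at h2
    have e2 : (-1) ^ s * X ^ (s ^ 2) * Z 0 - (-1) ^ s * X ^ (s ^ 2) *
        (odd s * ip (X ^ 2) ((2 * s : ℕ) : ℤ)) =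
        X ^ (s ^ 2) * ((-1) ^ s * (Z 0 - odd s * ip (X ^ 2) ((2 * s : ℕ) : ℤ))) := by ring
    have e3 : (X : ℤ⟦X⟧) ^ ((s + 1) ^ 2) = X ^ (s ^ 2) * X ^ (2 * s + 1) := by
      rw [← pow_add]
      congr 1
      ring
    rw [e2, e3, mul_dvd_mul_iff_left (pow_ne_zero _ X_ne_zero)] at h2
    rcases neg_one_pow_eq_or (ℤ⟦X⟧) s with h3 | h3
    · rwa [h3, one_mul] at h2
    · rwa [h3, neg_one_mul, dvd_neg] at h2
  have h2 : (X : ℤ⟦X⟧) ^ s ∣ pinf ((X ^ 2) ^ (2 * s + 1)) (X ^ 2) - 1 := by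
    apply pinf_dvd X_dvd_X_sq
    rw [← pow_mul]
    exact pow_dvd_pow X (by omega)
  have h3 : (X : ℤ⟦X⟧) ^ s ∣ pinf (X ^ (2 * s + 1)) (X ^ 2) - 1 := by
    apply pinf_dvd X_dvd_X_sq
    exact pow_dvd_pow X (by omega)
  have h4 := fpoch_mul_ip X_dvd_X_sq (2 * s)
  have e : pinf (X ^ 2) (X ^ 2) * Z 0 - pinf X (X ^ 2) =
      pinf (X ^ 2) (X ^ 2) * (Z 0 - odd s * ip (X ^ 2) ((2 * s : ℕ) : ℤ)) +
      odd s * (pinf ((X ^ 2) ^ (2 * s + 1)) (X ^ 2) - 1) -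
      odd s * (pinf (X ^ (2 * s + 1)) (X ^ 2) - 1) := by
    have e5 : pinf (X ^ 2) (X ^ 2) * (odd s * ip (X ^ 2) ((2 * s : ℕ) : ℤ)) =
        odd s * pinf ((X ^ 2) ^ (2 * s + 1)) (X ^ 2) := by
      rw [pinf_self_eq X_dvd_X_sq (2 * s)]
      calc _ = (fpoch (X ^ 2) (2 * s) * ip (X ^ 2) ((2 * s : ℕ) : ℤ)) *
            (odd s * pinf ((X ^ 2) ^ (2 * s + 1)) (X ^ 2)) := by ring
        _ = _ := by rw [h4, one_mul]
    rw [mul_sub, e5, pinf_X_eq s]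
    ring
  rw [e]
  refine dvd_sub (dvd_add ?_ ?_) ?_
  · exact Dvd.dvd.mul_left ((pow_dvd_pow X (by omega)).trans h1) _
  · exact Dvd.dvd.mul_left h2 _
  · exact Dvd.dvd.mul_left h3 _

/-- `(-q;q)_∞ (q;q²)_∞ = 1` -/
theorem euler_odd : pinf (-X) X * pinf X (X ^ 2) = 1 := by
  have h1 := pinf_mul_neg X (dvd_refl (X : ℤ⟦X⟧))
  have h2 := pinf_even_odd X (dvd_refl (X : ℤ⟦X⟧))
  have e : (X : ℤ⟦X⟧) * X = X ^ 2 := by ring
  rw [e] at h2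
  have h3 : pinf (X ^ 2 : ℤ⟦X⟧) (X ^ 2) ≠ 0 := pinf_ne_zero X_dvd_X_sq X_dvd_X_sq
  have h4 : pinf (X ^ 2 : ℤ⟦X⟧) (X ^ 2) * (pinf (-X) X * pinf X (X ^ 2)) =
      pinf (X ^ 2 : ℤ⟦X⟧) (X ^ 2) * 1 := by
    rw [mul_one]
    nth_rewrite 2 [← h1]
    rw [← h2]
    ring
  exact mul_left_cancel₀ h3 h4

theorem prefactor (n : ℕ) :
    pinf (-X ^ (n + 1)) X * fpoch (X ^ 2) n = pinf (-X : ℤ⟦X⟧) X * fpoch X n := by
  rw [pinf_split (-X) (dvd_refl (X : ℤ⟦X⟧)) n]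
  have e1 : (-X : ℤ⟦X⟧) * X ^ n = -X ^ (n + 1) := by ring
  have e2 : fpoch (X ^ 2 : ℤ⟦X⟧) n = (∏ m ∈ range n, (1 - -X * X ^ m)) * fpoch X n := by
    unfold fpoch
    rw [← prod_mul_distrib]
    apply prod_congr rfl
    intro m _
    ring
  rw [e1, e2]
  ring

theorem fpoch_X_odd (N : ℕ) : fpoch (X : ℤ⟦X⟧) (2 * N + 1) = odd (N + 1) * fpoch (X ^ 2) N := by
  induction N with
  | zero => simp [fpoch, odd]
  | succ N ih =>
    have e : 2 * (N + 1) + 1 = 2 * N + 1 + 1 + 1 := by ring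
    rw [e, fpoch_succ, fpoch_succ, ih, odd_succ (N + 1), fpoch_succ]
    ring

theorem fpoch_X_even (N : ℕ) : fpoch (X : ℤ⟦X⟧) (2 * N + 2) = odd (N + 1) * fpoch (X ^ 2) (N + 1) := by
  rw [fpoch_succ, fpoch_X_odd, fpoch_succ]
  ring

end Pool.Agent.Lib.MP_c0fb52_nt
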